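import Pool.Agent.W5h30.PW.Law

/-!
# The joint law of the digits of the powers of a random algebraic number, main theorem (helper30)
-/

set_option autoImplicit false
set_option linter.unusedVariables false

namespace Pool.Agent.W5h30.PW

open Set MeasureTheory Filter
open Pool.Agent.W5h30.LL Pool.Agent.W5h30.SM
open Pool.Agent.Y933.KG
open Pool.Agent.Y933.KD (e)

/-- finitely many constants are eventually smaller than a power -/
lemma ev_list (l : List ℝ) (τ : ℝ) (hτ : 0 < τ) : ∀ᶠ H : ℕ in atTop, ∀ c ∈ l, c ≤ (H : ℝ) ^ τ := by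
  induction l with
  | nil => exact Eventually.of_forall fun _ c hc => by simp at hc
  | cons x l ih =>
    filter_upwards [ih, ev_rpow x τ hτ] with H h1 h2
    intro c hc
    rw [List.mem_cons] at hc
    rcases hc with rfl | hc
    · exact h2
    · exact h1 c hc

/-- **the joint law of the digits of the powers of a random algebraic number** -/
theorem powers_law (n : ℕ) (hn : 1 ≤ n) {a b : ℝ} (hab : a < b) (q : ℕ) (η : ℝ) (hη : 0 < η) (hη1 : η ≤ 1) :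
    ∃ c : ℝ, 0 < c ∧ ∃ H0 : ℕ, ∀ H : ℕ, H0 ≤ H → ∀ s : Finset ℝ, (∀ x, x ∈ s ↔ x ∈ Alg (q + 2) H) →
      0 < cn s (fun x => x ∈ Icc a b) ∧
      ∀ m K : ℕ, 1 ≤ K → (K : ℝ) ^ n * (H : ℝ) ^ η ≤ m → (m : ℝ) * K ≤ (H : ℝ) ^ ((q : ℝ) + 3 - η) →
      ∀ E : Finset (Fin (n + 1) → ℕ), (∀ w ∈ E, ∀ j, w j < K) →
      |(cn s (fun x => x ∈ PVn a b n m K E) : ℝ) / (cn s (fun x => x ∈ Icc a b) : ℝ) -
        (E.card : ℝ) / (K : ℝ) ^ (n + 1)| ≤ (H : ℝ) ^ (-c) := by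
  classical
  have hba : 0 < b - a := by linarith
  obtain ⟨C1, hC1, hoff⟩ := PVn_off n hab.le
  obtain ⟨C2, hC2, c2, hc2, H2, hglue⟩ := glue q hab (η / 2) (by positivity) (by linarith)
  obtain ⟨C3, hC3, C4, hC4, hbm⟩ := bad_measure n hn a b
  obtain ⟨R, hR⟩ : ∃ R : ℝ, R = |a| + |b| + 1 := ⟨_, rfl⟩
  have hR1 : 1 ≤ R := by rw [hR]; linarith [abs_nonneg a, abs_nonneg b]
  have hCR := CR_pos n hR1
  obtain ⟨p, hp⟩ : ∃ p : ℕ, p = 6 * ((n + 1) * n) := ⟨_, rfl⟩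
  obtain ⟨z, hz⟩ : ∃ z : ℕ, z = p * (n + 1) + 8 := ⟨_, rfl⟩
  obtain ⟨Bg, hBg⟩ : ∃ Bg : ℕ, Bg = (2 * n + z + p * (n + 1)) + 4 := ⟨_, rfl⟩
  have hBg0 : (0 : ℝ) < Bg := by
    have : 0 < Bg := by omega
    exact_mod_cast this
  obtain ⟨τ, hτ⟩ : ∃ τ : ℝ, τ = η / Bg := ⟨_, rfl⟩
  have hτ0 : 0 < τ := by rw [hτ]; positivity
  have hτη : τ ≤ η := by
    rw [hτ, div_le_iff₀ hBg0]
    have h1 : (1 : ℝ) ≤ Bg := by
      have : 1 ≤ Bg := by omega
      exact_mod_cast this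
    nlinarith
  obtain ⟨c, hc⟩ : ∃ c : ℝ, c = min (τ / 2) (c2 / 2) := ⟨_, rfl⟩
  have hc0 : 0 < c := by rw [hc]; exact lt_min (by positivity) (by positivity)
  have hcτ : 2 * c ≤ τ := by
    have : c ≤ τ / 2 := by rw [hc]; exact min_le_left _ _
    linarith
  have hcc2 : 2 * c ≤ c2 := by
    have : c ≤ c2 / 2 := by rw [hc]; exact min_le_right _ _
    linarith
  obtain ⟨C5, hC5⟩ : ∃ C5 : ℝ, C5 = 2 * 4 ^ (n + 1) * C3 ^ (n + 1) * (12100 * n * ((b - a) + (b - a) ^ 2)) := ⟨_, rfl⟩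
  obtain ⟨C6, hC6⟩ : ∃ C6 : ℝ, C6 = 512 * (8 * CR n R) ^ n * C3 ^ (n + 1) + 1 := ⟨_, rfl⟩
  have hC60 : 0 < C6 := by rw [hC6]; positivity
  have hev : ∀ᶠ H : ℕ in atTop, (∀ C ∈ [64, 3 * C4, C5, C6, 8 / (b - a), 8 / (b - a) ^ 3, 2 * CR n R], C ≤ (H : ℝ) ^ τ) ∧
      C1 ≤ (H : ℝ) ^ (η / 2) ∧ 2 * (13 * (C2 * (9 * n + 11))) ≤ (H : ℝ) ^ c ∧ 2 ≤ (H : ℝ) ^ c ∧
      (H : ℝ) ^ ((q : ℝ) + 6) ≤ 2 ^ ((H : ℝ) ^ τ) ∧ H2 ≤ H ∧ 2 ≤ H := by
    filter_upwards [ev_list [64, 3 * C4, C5, C6, 8 / (b - a), 8 / (b - a) ^ 3, 2 * CR n R] τ hτ0,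
      ev_rpow C1 (η / 2) (by positivity), ev_rpow (2 * (13 * (C2 * (9 * n + 11)))) c hc0,
      ev_rpow 2 c hc0, ev_two ((q : ℝ) + 6) τ hτ0, eventually_ge_atTop H2, eventually_ge_atTop 2]
      with H a1 a2 a3 a4 a5 a6 a7
    exact ⟨a1, a2, a3, a4, a5, a6, a7⟩
  obtain ⟨H0, hH0⟩ := Filter.eventually_atTop.1 hev
  refine ⟨c, hc0, H0, fun H hH s hs => ?_⟩
  obtain ⟨gl, g2, g3, g4, g5, g6, g7⟩ := hH0 H hH
  have hHR2 : (2 : ℝ) ≤ H := by exact_mod_cast g7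
  have hHR : (1 : ℝ) ≤ H := by linarith
  have hHpos : (0 : ℝ) < H := by linarith
  have hq0 : (0 : ℝ) ≤ q := Nat.cast_nonneg q
  obtain ⟨hpos, hgl⟩ := hglue H g6 s hs
  refine ⟨hpos, fun m K hK hKm hmK E hE => ?_⟩
  obtain ⟨T, hT⟩ : ∃ T : ℝ, T = (H : ℝ) ^ τ := ⟨_, rfl⟩
  rw [← hT] at gl g5
  have t1 : 64 ≤ T := gl _ (by simp)
  have t2 : 3 * C4 ≤ T := gl _ (by simp)
  have t3 : C5 ≤ T := gl _ (by simp)
  have t4 : C6 ≤ T := gl _ (by simp)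
  have t5 : 8 / (b - a) ≤ T := gl _ (by simp)
  have t6 : 8 / (b - a) ^ 3 ≤ T := gl _ (by simp)
  have t7 : 2 * CR n R ≤ T := gl _ (by simp)
  have hT0 : 0 < T := by linarith
  have hT1 : 1 ≤ T := by linarith
  have hTB : (H : ℝ) ^ η = T ^ Bg := by
    rw [hT, ← Real.rpow_natCast, ← Real.rpow_mul hHpos.le]
    congr 1
    rw [hτ]
    field_simp
  rw [hTB] at hKm
  have hKR : (1 : ℝ) ≤ K := by exact_mod_cast hK
  have hKn : (1 : ℝ) ≤ (K : ℝ) ^ n := one_le_pow₀ hKR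
  have hmT : T ^ Bg ≤ m := le_trans (le_mul_of_one_le_left (by positivity) hKn) hKm
  have hmR : (1 : ℝ) ≤ m := (one_le_pow₀ hT1).trans hmT
  have hm1 : 1 ≤ m := by exact_mod_cast hmR
  obtain ⟨J, hJ⟩ : ∃ J : ℕ, J = ⌈T⌉₊ := ⟨_, rfl⟩
  have hJpos : 0 < J := by rw [hJ]; exact Nat.ceil_pos.2 hT0
  have hJge : T ≤ J := by rw [hJ]; exact Nat.le_ceil T
  have hJle : (J : ℝ) ≤ 2 * T := by rw [hJ]; exact ceil_le_two hT1
  have hJR : (0 : ℝ) < J := by linarith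
  -- boundary points
  obtain ⟨Q, hQ, hQ2⟩ := hoff m K hm1 hK
  have hQ3 : (Q.card : ℝ) ≤ (H : ℝ) ^ ((q : ℝ) + 3 - η / 2) := by
    refine hQ.trans ?_
    calc C1 * ((m : ℝ) * K) ≤ (H : ℝ) ^ (η / 2) * (H : ℝ) ^ ((q : ℝ) + 3 - η) := by gcongr
      _ = _ := by
          rw [← Real.rpow_add hHpos]
          congr 1
          ring
  have he0 : 0 ≤ (E.card : ℝ) / (K : ℝ) ^ (n + 1) := by positivity
  have he1 : (E.card : ℝ) / (K : ℝ) ^ (n + 1) ≤ 1 := by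
    have h1 : E ⊆ Fintype.piFinset fun _ : Fin (n + 1) => Finset.range K := by
      intro w hw
      rw [Fintype.mem_piFinset]
      intro j
      rw [Finset.mem_range]
      exact hE w hw j
    have h2 := Finset.card_le_card h1
    rw [Fintype.card_piFinset] at h2
    simp only [Finset.card_range, Finset.prod_const, Finset.card_univ, Fintype.card_fin] at h2
    rw [div_le_one (by positivity)]
    exact_mod_cast h2
  -- the length of the intervals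
  obtain ⟨ℓ, hℓ⟩ : ∃ ℓ : ℝ, ℓ = (b - a) / J := ⟨_, rfl⟩
  have hℓ0 : 0 < ℓ := by rw [hℓ]; positivity
  have hℓlow : (b - a) / (2 * T) ≤ ℓ := by rw [hℓ]; gcongr
  have hℓup : ℓ ≤ b - a := by
    rw [hℓ, div_le_iff₀ hJR]
    nlinarith
  have hℓ2 : 4 / T ^ 2 ≤ ℓ := by
    refine le_trans ?_ hℓlow
    rw [div_le_div_iff₀ (by positivity) (by positivity)]
    rw [div_le_iff₀ hba] at t5
    nlinarith
  have hℓ3 : 4 / T ^ 3 ≤ ℓ := by
    refine le_trans ?_ hℓ2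
    apply div_le_div_of_nonneg_left (by norm_num) (by positivity)
    exact pow_le_pow_right₀ hT1 (by norm_num)
  have hi1 : T ^ z ≤ ℓ ^ 3 * m := by
    have h1 : ((b - a) / (2 * T)) ^ 3 ≤ ℓ ^ 3 := pow_le_pow_left₀ (by positivity) hℓlow 3
    have h2 : T ^ (z + 4) ≤ m := le_trans (pow_le_pow_right₀ hT1 (by omega)) hmT
    have h3 : T ^ z ≤ ((b - a) / (2 * T)) ^ 3 * T ^ (z + 4) := by
      have h4 : ((b - a) / (2 * T)) ^ 3 * T ^ (z + 4) = T ^ z * (T * ((b - a) ^ 3 / 8)) := by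
        rw [div_pow, mul_pow, pow_add]
        field_simp
        ring
      rw [h4]
      refine le_mul_of_one_le_right (by positivity) ?_
      rw [div_le_iff₀ (by positivity)] at t6
      linarith
    calc T ^ z ≤ ((b - a) / (2 * T)) ^ 3 * T ^ (z + 4) := h3
      _ ≤ ℓ ^ 3 * m := by gcongr
  have hi2 : 64 * T ^ z ≤ m := by
    have h2 : T ^ (z + 1) ≤ m := le_trans (pow_le_pow_right₀ hT1 (by omega)) hmT
    have h3 : 64 * T ^ z ≤ T ^ (z + 1) := by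
      rw [pow_succ, mul_comm]
      gcongr
    linarith
  have hi3 : (m : ℝ) * (8 * CR n R * K * T ^ 2) ≤ 4 * 2 ^ J := by
    have h1 : (m : ℝ) * K ≤ (H : ℝ) ^ ((q : ℝ) + 3) :=
      hmK.trans (Real.rpow_le_rpow_of_exponent_le hHR (by linarith))
    have hTH : T ≤ H := by
      rw [hT]
      calc (H : ℝ) ^ τ ≤ (H : ℝ) ^ (1 : ℝ) := Real.rpow_le_rpow_of_exponent_le hHR (by linarith)
        _ = H := Real.rpow_one _
    have h2 : (m : ℝ) * (8 * CR n R * K * T ^ 2) ≤ 4 * ((H : ℝ) ^ ((q : ℝ) + 3) * (H * (H * H))) := by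
      have h3 : (m : ℝ) * (8 * CR n R * K * T ^ 2) = 4 * ((m * K) * ((2 * CR n R) * (T * T))) := by ring
      rw [h3]
      have h4 : 2 * CR n R ≤ H := t7.trans hTH
      gcongr
    have h3 : (H : ℝ) ^ ((q : ℝ) + 3) * (H * (H * H)) = (H : ℝ) ^ ((q : ℝ) + 6) := by
      have h4 : (H : ℝ) * (H * H) = (H : ℝ) ^ (3 : ℝ) := by
        have : (3 : ℝ) = ((3 : ℕ) : ℝ) := by norm_num
        rw [this, Real.rpow_natCast]
        ring
      rw [h4, ← Real.rpow_add hHpos]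
      congr 1
      ring
    rw [h3] at h2
    have h4 : (2 : ℝ) ^ T ≤ 2 ^ J := by
      rw [← Real.rpow_natCast]
      exact Real.rpow_le_rpow_of_exponent_le (by norm_num) hJge
    linarith
  have hi4 : 512 * (8 * CR n R) ^ n * C3 ^ (n + 1) * (K : ℝ) ^ n * T ^ (2 * n + z + p * (n + 1)) < m := by
    have h1 : 512 * (8 * CR n R) ^ n * C3 ^ (n + 1) < T := by
      have : C6 ≤ T := t4
      rw [hC6] at this
      linarith
    have h2 : T * T ^ (2 * n + z + p * (n + 1)) ≤ T ^ Bg := by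
      rw [← pow_succ']
      exact pow_le_pow_right₀ hT1 (by omega)
    calc 512 * (8 * CR n R) ^ n * C3 ^ (n + 1) * (K : ℝ) ^ n * T ^ (2 * n + z + p * (n + 1))
        = (512 * (8 * CR n R) ^ n * C3 ^ (n + 1)) * ((K : ℝ) ^ n * T ^ (2 * n + z + p * (n + 1))) := by ring
      _ < T * ((K : ℝ) ^ n * T ^ (2 * n + z + p * (n + 1))) := by
          refine mul_lt_mul_of_pos_right h1 (by positivity)
      _ = (K : ℝ) ^ n * (T * T ^ (2 * n + z + p * (n + 1))) := by ring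
      _ ≤ (K : ℝ) ^ n * T ^ Bg := by gcongr
      _ ≤ m := hKm
  have hi5 : 2 * 4 ^ (n + 1) * C3 ^ (n + 1) * (12100 * n * (ℓ + ℓ ^ 2)) ≤ T := by
    refine le_trans ?_ t3
    rw [hC5]
    have h0 : (0 : ℝ) ≤ C3 := by linarith
    gcongr
  obtain ⟨err, herr⟩ : ∃ err : ℝ, err = (9 * n + 11) / T := ⟨_, rfl⟩
  have hfinal := hgl (PVn a b n m K E) (PVn_meas m K E) (fun t ht => ht.1) Q hQ3 (PVn_off' hQ2 E)
    ((E.card : ℝ) / (K : ℝ) ^ (n + 1)) err he0 he1 J hJpos (by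
      intro i hi
      have hstep := tp_succ a b hJpos i
      have ht0 := tp_mem hab hJpos hi.le
      have ht1 := tp_mem hab hJpos (Nat.succ_le_of_lt hi)
      rw [Nat.succ_eq_add_one] at ht1
      rw [hstep] at ht1 ⊢
      rw [← hℓ] at ht1 ⊢
      rw [herr]
      exact one_interval hn hC3 hC4 hbm hp hz ht0.1 ht1.2 hℓ0 hR t1 hJge hJle hK t2 hℓ3 hi5 hℓ2 hi1 hi2
        hi3 hi4 E hE)
  refine hfinal.trans ?_
  have hn0 : (0 : ℝ) ≤ n := Nat.cast_nonneg n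
  have hC2' : 0 ≤ C2 * (9 * n + 11) := by positivity
  have h1 : C2 * (err + 1 / J) ≤ (C2 * (9 * n + 11)) * (12 / T + 1 / J) := by
    rw [herr, mul_assoc]
    refine mul_le_mul_of_nonneg_left ?_ hC2
    have h2 : (9 * (n : ℝ) + 11) / T ≤ (9 * n + 11) * (12 / T) := by
      rw [mul_div_assoc']
      gcongr
      nlinarith
    have h3 : (1 : ℝ) / J ≤ (9 * n + 11) * (1 / J) := by
      have : 0 < (1 : ℝ) / J := by positivity
      nlinarith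
    linarith
  have h2 := num2 (C2 := C2 * (9 * n + 11)) (T := T) (J := J) (c := c) (c2 := c2) hHR (by
    rw [hT]
    exact Real.rpow_le_rpow_of_exponent_le hHR hcτ) hC2' g3 g4 hcc2 hJge hT1
  linarith

end Pool.Agent.W5h30.PW
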