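import Pool.Agent.W5h30.PW.KM

/-!
# Counting integer vectors in a box seen from a good point (helper30)
-/

set_option autoImplicit false
set_option linter.unusedVariables false

namespace Pool.Agent.W5h30.PW

open Polynomial Set
open Pool.Agent.W5h30.LL

variable {n : ℕ}

lemma pv_add (y z : Fin (n + 1) → ℝ) : pv (fun i => y i + z i) = pv y + pv z := by
  unfold pv
  rw [← Finset.sum_add_distrib]
  refine Finset.sum_congr rfl fun i _ => ?_
  rw [C_add]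
  ring

lemma tc_sub (y z : Fin (n + 1) → ℝ) (x : ℝ) (k : ℕ) :
    tc (fun i => y i - z i) x k = tc y x k - tc z x k := by
  unfold tc
  rw [← pv_sub, map_sub, coeff_sub]

/-- counting in a box -/
lemma count {w B : Fin (n + 1) → ℝ} {x : ℝ} (hw : ∀ k, 0 < w k) (hB0 : ∀ k, 0 ≤ B k) (h : GP w x)
    (S : Finset (Fin (n + 1) → ℤ))
    (hS : ∀ u ∈ S, ∀ k : Fin (n + 1), |tc (fun i => (u i : ℝ)) x k| ≤ B k) :
    (S.card : ℝ) ≤ ∏ k, (2 * (B k / w k) + 2) := by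
  classical
  set F : (Fin (n + 1) → ℤ) → (Fin (n + 1) → ℤ) := fun u k => ⌊tc (fun i => (u i : ℝ)) x k / w k⌋ with hF
  have hinj : InjOn F S := by
    intro u _ v _ huv
    by_contra hne
    have hne' : (fun i => u i - v i) ≠ 0 := by
      intro h0
      apply hne
      funext i
      have := congrFun h0 i
      simp only [Pi.zero_apply] at this
      omega
    obtain ⟨k, hk⟩ := h _ hne'
    have h1 : tc (fun i => (((u i - v i : ℤ)) : ℝ)) x k = tc (fun i => (u i : ℝ)) x k - tc (fun i => (v i : ℝ)) x k := by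
      rw [← tc_sub]
      congr 1
      funext i
      push_cast
      ring
    rw [h1] at hk
    have h2 : ⌊tc (fun i => (u i : ℝ)) x k / w k⌋ = ⌊tc (fun i => (v i : ℝ)) x k / w k⌋ := congrFun huv k
    have h3 := Int.abs_sub_lt_one_of_floor_eq_floor h2
    rw [← sub_div, abs_div, abs_of_pos (hw k), div_lt_one (hw k)] at h3
    linarith
  have hsub : S.image F ⊆ Fintype.piFinset fun k => Finset.Icc ⌊-(B k / w k)⌋ ⌊B k / w k⌋ := by
    intro z hz
    rw [Finset.mem_image] at hz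
    obtain ⟨u, hu, rfl⟩ := hz
    rw [Fintype.mem_piFinset]
    intro k
    rw [Finset.mem_Icc]
    have h1 := abs_le.1 (hS u hu k)
    refine ⟨Int.floor_le_floor ?_, Int.floor_le_floor ?_⟩
    · rw [← neg_div]
      exact div_le_div_of_nonneg_right h1.1 (hw k).le
    · exact div_le_div_of_nonneg_right h1.2 (hw k).le
  have h1 := Finset.card_le_card hsub
  rw [Finset.card_image_of_injOn hinj, Fintype.card_piFinset] at h1
  have h2 : (S.card : ℝ) ≤ ∏ k, (((Finset.Icc ⌊-(B k / w k)⌋ ⌊B k / w k⌋).card : ℕ) : ℝ) := by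
    exact_mod_cast h1
  refine h2.trans (Finset.prod_le_prod (fun _ _ => Nat.cast_nonneg _) fun k _ => ?_)
  rw [Int.card_Icc]
  have hBw : 0 ≤ B k / w k := div_nonneg (hB0 k) (hw k).le
  have h3 : ⌊-(B k / w k)⌋ ≤ ⌊B k / w k⌋ := Int.floor_le_floor (by linarith)
  have h4 : (((⌊B k / w k⌋ + 1 - ⌊-(B k / w k)⌋).toNat : ℕ) : ℝ) = ((⌊B k / w k⌋ + 1 - ⌊-(B k / w k)⌋ : ℤ) : ℝ) := by
    have : (((⌊B k / w k⌋ + 1 - ⌊-(B k / w k)⌋).toNat : ℕ) : ℤ) = ⌊B k / w k⌋ + 1 - ⌊-(B k / w k)⌋ :=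
      Int.toNat_of_nonneg (by omega)
    exact_mod_cast congrArg (fun z : ℤ => (z : ℝ)) this
  rw [h4]
  push_cast
  have h5 : (⌊B k / w k⌋ : ℝ) ≤ B k / w k := Int.floor_le _
  have h6 : -(B k / w k) < (⌊-(B k / w k)⌋ : ℝ) + 1 := Int.lt_floor_add_one _
  linarith

/-- the sides of the box -/
noncomputable def sh (n : ℕ) (ρ T α : ℝ) (k : Fin (n + 1)) : ℝ :=
  if (k : ℕ) = 0 then min α T else if (k : ℕ) = 1 then min (α / (2 * ρ)) T else T

/-- the normalisation -/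
noncomputable def Yn (n : ℕ) (ρ T α : ℝ) : ℝ := (∏ k, sh n ρ T α k) ^ (((n + 1 : ℕ) : ℝ)⁻¹)

variable {ρ T α : ℝ}

lemma sh_pos (hρ : 0 < ρ) (hT : 0 < T) (hα : 0 < α) (k : Fin (n + 1)) : 0 < sh n ρ T α k := by
  unfold sh
  split_ifs
  · exact lt_min hα hT
  · exact lt_min (by positivity) hT
  · exact hT

lemma sh_mono (hρ : 0 < ρ) (hρ1 : ρ ≤ 1 / 2) (hT : 0 < T) (hα : 0 < α) : Monotone (sh n ρ T α) := by
  intro i j hij
  rw [Fin.le_def] at hij
  have h1 : α ≤ α / (2 * ρ) := by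
    rw [le_div_iff₀ (by positivity)]
    nlinarith
  unfold sh
  by_cases hi0 : (i : ℕ) = 0
  · rw [if_pos hi0]
    split_ifs
    · exact le_rfl
    · exact min_le_min_right _ h1
    · exact min_le_right _ _
  · rw [if_neg hi0]
    have hj0 : (j : ℕ) ≠ 0 := by omega
    rw [if_neg hj0]
    by_cases hi1 : (i : ℕ) = 1
    · rw [if_pos hi1]
      split_ifs
      · exact le_rfl
      · exact min_le_right _ _
    · rw [if_neg hi1]
      have hj1 : (j : ℕ) ≠ 1 := by omega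
      rw [if_neg hj1]

lemma sh_prod_le (hn : 1 ≤ n) (hρ : 0 < ρ) (hT : 0 < T) (hα : 0 < α) :
    ∏ k, sh n ρ T α k ≤ α * (α / (2 * ρ)) * T ^ (n - 1) := by
  obtain ⟨m, rfl⟩ : ∃ m, n = m + 1 := ⟨n - 1, by omega⟩
  rw [Fin.prod_univ_succ, Fin.prod_univ_succ]
  have h1 : ∀ i : Fin m, sh (m + 1) ρ T α i.succ.succ = T := by
    intro i
    unfold sh
    rw [if_neg (by simp), if_neg (by simp)]
  rw [Finset.prod_congr rfl (fun i _ => h1 i), Finset.prod_const, Finset.card_univ, Fintype.card_fin]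
  have h2 : sh (m + 1) ρ T α 0 = min α T := by
    unfold sh
    rw [if_pos (by simp)]
  have h3 : sh (m + 1) ρ T α (Fin.succ 0) = min (α / (2 * ρ)) T := by
    unfold sh
    rw [if_neg (by simp), if_pos (by simp)]
  rw [h2, h3, Nat.add_sub_cancel, ← mul_assoc]
  have h4 : 0 < min α T := lt_min hα hT
  have h5 : 0 < min (α / (2 * ρ)) T := lt_min (by positivity) hT
  refine mul_le_mul_of_nonneg_right ?_ (by positivity)
  exact mul_le_mul (min_le_left _ _) (min_le_left _ _) h5.le hα.le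

lemma Yn_pos (hρ : 0 < ρ) (hT : 0 < T) (hα : 0 < α) : 0 < Yn n ρ T α :=
  Real.rpow_pos_of_pos (Finset.prod_pos fun k _ => sh_pos hρ hT hα k) _

lemma Yn_pow (hρ : 0 < ρ) (hT : 0 < T) (hα : 0 < α) :
    Yn n ρ T α ^ (n + 1) = ∏ k, sh n ρ T α k :=
  Real.rpow_inv_natCast_pow (Finset.prod_nonneg fun k _ => (sh_pos hρ hT hα k).le) (by omega)

lemma wn_prod (hρ : 0 < ρ) (hT : 0 < T) (hα : 0 < α) :
    ∏ k, sh n ρ T α k / Yn n ρ T α = 1 := by
  rw [Finset.prod_div_distrib, Finset.prod_const, Finset.card_univ, Fintype.card_fin, Yn_pow hρ hT hα]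
  exact div_self (Finset.prod_pos fun k _ => sh_pos hρ hT hα k).ne'

lemma wn_mono (hρ : 0 < ρ) (hρ1 : ρ ≤ 1 / 2) (hT : 0 < T) (hα : 0 < α) :
    Monotone (fun k => sh n ρ T α k / Yn n ρ T α) := by
  intro i j hij
  exact div_le_div_of_nonneg_right (sh_mono hρ hρ1 hT hα hij) (Yn_pos hρ hT hα).le

/-- good points at one level -/
def GLv (n : ℕ) (ρ T α μ x : ℝ) : Prop := GP (fun k : Fin (n + 1) => μ * (sh n ρ T α k / Yn n ρ T α)) x

/-- the measure of the bad points at one level -/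
theorem gl_measure (n : ℕ) (hn : 1 ≤ n) : ∃ C : ℝ, 1 ≤ C ∧ ∀ ρ T α : ℝ, 0 < ρ → ρ ≤ 1 / 2 → 0 < T → 0 < α →
    ∀ ε : ℝ, 0 < ε → ε ≤ 1 → ∀ m : ℤ,
      MeasureTheory.volume {x ∈ Ico (m : ℝ) (m + 1) | ¬ GLv n ρ T α (ε / C) x} ≤
        ENNReal.ofReal (C * ε ^ (1 / (((n + 1) * n : ℕ) : ℝ))) := by
  obtain ⟨C, hC, h⟩ := gp_measure n hn
  refine ⟨C, hC, fun ρ T α hρ hρ1 hT hα ε hε hε1 m => ?_⟩
  have hY := Yn_pos (n := n) hρ hT hα
  have hw0 : ∀ k, 0 < sh n ρ T α k / Yn n ρ T α := fun k => div_pos (sh_pos hρ hT hα k) hY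
  exact h (fun k => sh n ρ T α k / Yn n ρ T α) hw0
    (fun j hj1 hj => part_le _ hw0 (wn_mono hρ hρ1 hT hα) (wn_prod hρ hT hα).le j hj1 hj) ε hε hε1 m

/-- counting at one level -/
lemma count_level (hn : 1 ≤ n) (hρ : 0 < ρ) (hT : 0 < T) (hα : 0 < α) {μ x : ℝ} (hμ : 0 < μ) (hμ1 : μ ≤ 1)
    (h : GLv n ρ T α μ x) (S : Finset (Fin (n + 1) → ℤ))
    (hS : ∀ u ∈ S, (∀ k : ℕ, |tc (fun i => (u i : ℝ)) x k| ≤ T) ∧ |tc (fun i => (u i : ℝ)) x 0| ≤ α ∧
      2 * ρ * |tc (fun i => (u i : ℝ)) x 1| ≤ α) :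
    (S.card : ℝ) ≤ 4 ^ (n + 1) / μ ^ (n + 1) * (1 + α * (α / (2 * ρ)) * T ^ (n - 1)) := by
  have hY := Yn_pos (n := n) hρ hT hα
  have hsh : ∀ k : Fin (n + 1), 0 < sh n ρ T α k := fun k => sh_pos hρ hT hα k
  have h1 := count (B := sh n ρ T α) (fun k => mul_pos hμ (div_pos (hsh k) hY)) (fun k => (hsh k).le) h S
    (fun u hu k => by
      obtain ⟨a1, a2, a3⟩ := hS u hu
      unfold sh
      split_ifs with hk0 hk1
      · rw [hk0]; exact le_min a2 (a1 0)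
      · rw [hk1]
        refine le_min ?_ (a1 1)
        rw [le_div_iff₀ (by positivity)]
        linarith
      · exact a1 k)
  refine h1.trans ?_
  obtain ⟨Y, hYd⟩ : ∃ Y : ℝ, Y = Yn n ρ T α := ⟨_, rfl⟩
  have h2 : ∀ k : Fin (n + 1), 2 * (sh n ρ T α k / (μ * (sh n ρ T α k / Yn n ρ T α))) + 2 = 2 * (Y / μ) + 2 := by
    intro k
    rw [hYd]
    have := (hsh k).ne'
    field_simp
  rw [Finset.prod_congr rfl (fun k _ => h2 k), Finset.prod_const, Finset.card_univ, Fintype.card_fin]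
  rw [← hYd] at hY
  have h3 : Y ^ (n + 1) ≤ α * (α / (2 * ρ)) * T ^ (n - 1) := by
    rw [hYd, Yn_pow hρ hT hα]
    exact sh_prod_le hn hρ hT hα
  have h4 : 2 * (Y / μ) + 2 ≤ 4 * max (Y / μ) 1 := by
    have := le_max_left (Y / μ) 1
    have := le_max_right (Y / μ) 1
    linarith
  have h5 : (2 * (Y / μ) + 2) ^ (n + 1) ≤ (4 * max (Y / μ) 1) ^ (n + 1) :=
    pow_le_pow_left₀ (by positivity) h4 _
  refine h5.trans ?_
  rw [mul_pow, div_mul_eq_mul_div, mul_div_assoc]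
  refine mul_le_mul_of_nonneg_left ?_ (by positivity)
  have hμp : μ ^ (n + 1) ≤ 1 := pow_le_one₀ hμ.le hμ1
  rw [le_div_iff₀ (by positivity)]
  rcases le_total (Y / μ) 1 with h6 | h6
  · rw [max_eq_right h6, one_pow, one_mul]
    have : 0 ≤ α * (α / (2 * ρ)) * T ^ (n - 1) := by positivity
    linarith
  · rw [max_eq_left h6, div_pow, div_mul_cancel₀ _ (by positivity)]
    linarith

/-- no vectors at the lowest level -/
lemma none_level (hn : 1 ≤ n) (hρ : 0 < ρ) (hT : 0 < T) (hα : 0 < α) {μ x : ℝ} (hμ : 0 < μ)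
    (hvol : α * (α / (2 * ρ)) * T ^ (n - 1) < μ ^ (n + 1))
    (h : GLv n ρ T α μ x) (u : Fin (n + 1) → ℤ) (hu : u ≠ 0)
    (h1 : ∀ k : ℕ, |tc (fun i => (u i : ℝ)) x k| ≤ T) :
    α < max |tc (fun i => (u i : ℝ)) x 0| (2 * ρ * |tc (fun i => (u i : ℝ)) x 1|) := by
  by_contra hcon
  push Not at hcon
  have a2 := (le_max_left _ _).trans hcon
  have a3 := (le_max_right _ _).trans hcon
  have hY := Yn_pos (n := n) hρ hT hα
  obtain ⟨k, hk⟩ := h u hu
  have hsh := sh_pos (n := n) hρ hT hα k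
  have h2 : |tc (fun i => (u i : ℝ)) x k| ≤ sh n ρ T α k := by
    unfold sh
    split_ifs with hk0 hk1
    · rw [hk0]; exact le_min a2 (h1 0)
    · rw [hk1]
      refine le_min ?_ (h1 1)
      rw [le_div_iff₀ (by positivity)]
      linarith
    · exact h1 k
  have h3 : μ * (sh n ρ T α k / Yn n ρ T α) ≤ sh n ρ T α k := hk.trans h2
  have h4 : μ ≤ Yn n ρ T α := by
    rw [mul_div_assoc', div_le_iff₀ hY] at h3
    nlinarith
  have h5 : μ ^ (n + 1) ≤ Yn n ρ T α ^ (n + 1) := pow_le_pow_left₀ hμ.le h4 _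
  rw [Yn_pow hρ hT hα] at h5
  have h6 := sh_prod_le hn hρ hT hα
  linarith

end Pool.Agent.W5h30.PW
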