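import Pool.Agent.W5h30.SM.Osc
import Pool.Agent.W5h30.PW.Count

/-!
# Oscillatory integrals of polynomials over one cell (helper30)
-/

set_option autoImplicit false

namespace Pool.Agent.W5h30.PW

open Polynomial MeasureTheory Set intervalIntegral
open Pool.Agent.Y933.KD Pool.Agent.W5h30.SM

/-- increments -/
lemma incr {f f' : ℝ → ℝ} {x r M : ℝ} (hr : 0 ≤ r) (hf : ∀ t ∈ Icc (x - r) (x + r), HasDerivAt f (f' t) t)
    (hM : ∀ t ∈ Icc (x - r) (x + r), |f' t| ≤ M) : ∀ t ∈ Icc (x - r) (x + r), |f t - f x| ≤ M * |t - x| := by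
  intro t ht
  have hx : x ∈ Icc (x - r) (x + r) := ⟨by linarith, by linarith⟩
  have h := Convex.norm_image_sub_le_of_norm_hasDerivWithin_le (f := f) (f' := f') (C := M)
    (fun y hy => (hf y hy).hasDerivWithinAt) (fun y hy => by rw [Real.norm_eq_abs]; exact hM y hy)
    (convex_Icc (x - r) (x + r)) hx ht
  simpa [Real.norm_eq_abs] using h

/-- the data of one cell -/
structure Cell (Q : ℝ[X]) (x ρ B c0 c1 : ℝ) : Prop where
  hρ : 0 < ρ
  hB : 0 < B
  h0 : Q.eval x = c0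
  h1 : (derivative Q).eval x = c1
  h2 : ∀ t ∈ Icc (x - 4 * ρ) (x + 4 * ρ), |(derivative (derivative Q)).eval t| ≤ 2 * B

variable {Q : ℝ[X]} {x ρ B c0 c1 : ℝ}

lemma Cell.near1 (h : Cell Q x ρ B c0 c1) : ∀ t ∈ Icc (x - 4 * ρ) (x + 4 * ρ),
    |(derivative Q).eval t - c1| ≤ 2 * B * |t - x| := by
  have := incr (f := fun t => (derivative Q).eval t) (f' := fun t => (derivative (derivative Q)).eval t)
    (x := x) (r := 4 * ρ) (M := 2 * B) (by have := h.hρ; positivity)
    (fun t _ => (derivative Q).hasDerivAt t) h.h2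
  simpa only [h.h1] using this

/-- a root near a critical cell -/
lemma Cell.root (h : Cell Q x ρ B c0 c1) (hA : 16 * B * ρ ≤ |c1|) (h0 : |c0| ≤ 2 * ρ * |c1|) :
    ∃ ζ ∈ Icc (x - 4 * ρ) (x + 4 * ρ), Q.eval ζ = 0 := by
  have hρ := h.hρ
  have hB := h.hB
  obtain ⟨s, hs, hs2⟩ : ∃ s : ℝ, s * c1 = |c1| ∧ |s| = 1 := by
    rcases le_total 0 c1 with hc | hc
    · exact ⟨1, by rw [one_mul, abs_of_nonneg hc], abs_one⟩
    · exact ⟨-1, by rw [neg_one_mul, abs_of_nonpos hc], by simp⟩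
  have hs0 : s ≠ 0 := by
    intro h0
    rw [h0, abs_zero] at hs2
    exact absurd hs2 (by norm_num)
  have hder : ∀ t ∈ Icc (x - 4 * ρ) (x + 4 * ρ), |c1| / 2 ≤ s * (derivative Q).eval t := by
    intro t ht
    have h1 := h.near1 t ht
    have h2 : |t - x| ≤ 4 * ρ := by
      rw [abs_le]
      constructor <;> linarith [ht.1, ht.2]
    have h3 : 2 * B * |t - x| ≤ |c1| / 2 := by nlinarith
    have h4 : |s * ((derivative Q).eval t - c1)| ≤ |c1| / 2 := by
      rw [abs_mul, hs2, one_mul]; exact h1.trans h3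
    have h5 := (abs_le.1 h4).1
    have h6 : s * ((derivative Q).eval t - c1) = s * (derivative Q).eval t - |c1| := by
      rw [mul_sub, hs]
    linarith
  have hmv := Convex.mul_sub_le_image_sub_of_le_deriv (D := Icc (x - 4 * ρ) (x + 4 * ρ)) (convex_Icc _ _)
    (f := fun t => s * Q.eval t) ((continuous_const.mul Q.continuous).continuousOn)
    (fun t _ => ((Q.hasDerivAt t).const_mul s).differentiableAt.differentiableWithinAt)
    (C := |c1| / 2) (fun t ht => by
      rw [interior_Icc] at ht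
      rw [((Q.hasDerivAt t).const_mul s).deriv]
      exact hder t (Ioo_subset_Icc_self ht))
  have hl : x - 4 * ρ ∈ Icc (x - 4 * ρ) (x + 4 * ρ) := ⟨le_rfl, by linarith⟩
  have hr : x + 4 * ρ ∈ Icc (x - 4 * ρ) (x + 4 * ρ) := ⟨by linarith, le_rfl⟩
  have hx : x ∈ Icc (x - 4 * ρ) (x + 4 * ρ) := ⟨by linarith, by linarith⟩
  have a1 := hmv (x - 4 * ρ) hl x hx (by linarith)
  have a2 := hmv x hx (x + 4 * ρ) hr (by linarith)
  simp only [h.h0] at a1 a2
  have hsc : |s * c0| ≤ 2 * ρ * |c1| := by rw [abs_mul, hs2, one_mul]; exact h0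
  have hsc' := abs_le.1 hsc
  have b1 : s * Q.eval (x - 4 * ρ) ≤ 0 := by nlinarith
  have b2 : 0 ≤ s * Q.eval (x + 4 * ρ) := by nlinarith
  have hivt := intermediate_value_Icc (a := x - 4 * ρ) (b := x + 4 * ρ) (by linarith)
    (f := fun t => s * Q.eval t) ((continuous_const.mul Q.continuous).continuousOn)
  obtain ⟨ζ, hζ, hζ0⟩ := hivt (show (0 : ℝ) ∈ Icc _ _ from ⟨b1, b2⟩)
  refine ⟨ζ, hζ, ?_⟩
  rcases mul_eq_zero.1 hζ0 with h1 | h1
  · exact absurd h1 hs0
  · exact h1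

lemma to_exp (P : ℝ → ℝ) (m α β : ℝ) : ∫ t in α..β, e (m * P t) =
    ∫ t in α..β, Complex.exp (Complex.I * ((2 * Real.pi * m * P t : ℝ) : ℂ)) := by
  congr 1
  funext t
  unfold e
  rw [mul_comm, mul_assoc (2 * Real.pi)]

/-- the integral over a critical cell -/
lemma Cell.intA (h : Cell Q x ρ B c0 c1) (hA : 16 * B * ρ ≤ |c1|) {P : ℝ → ℝ}
    (hP : ∀ t, HasDerivAt P (Q.eval t) t) {m : ℝ} (hm : 0 < m) {α β : ℝ} (hα : x - ρ ≤ α) (hαβ : α ≤ β)
    (hβ : β ≤ x + ρ) : ‖∫ t in α..β, e (m * P t)‖ ^ 2 ≤ 64 / (m * |c1|) := by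
  have hρ := h.hρ
  have hB := h.hB
  have hpi := Real.pi_pos
  have hpi3 := Real.pi_gt_three
  have hc1 : 0 < |c1| := lt_of_lt_of_le (by positivity) hA
  have hd1 : ∀ t ∈ Icc α β, HasDerivAt (fun t => 2 * Real.pi * m * P t) (2 * Real.pi * m * Q.eval t) t :=
    fun t _ => (hP t).const_mul _
  have hd2 : ∀ t ∈ Icc α β, HasDerivAt (fun t => 2 * Real.pi * m * Q.eval t)
      (2 * Real.pi * m * (derivative Q).eval t) t := fun t _ => (Q.hasDerivAt t).const_mul _
  have hc2 : ContinuousOn (fun t => 2 * Real.pi * m * (derivative Q).eval t) (Icc α β) :=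
    (continuous_const.mul (derivative Q).continuous).continuousOn
  have hκ : 0 < Real.pi * m * |c1| := by positivity
  have hnear : ∀ t ∈ Icc α β, |(derivative Q).eval t - c1| ≤ |c1| / 2 := by
    intro t ht
    have h1 := h.near1 t ⟨by linarith [ht.1], by linarith [ht.2]⟩
    have h2 : |t - x| ≤ ρ := by
      rw [abs_le]
      constructor <;> linarith [ht.1, ht.2]
    nlinarith
  have hres : ‖∫ t in α..β, e (m * P t)‖ ≤ 8 / √(Real.pi * m * |c1|) := by
    rw [to_exp]
    rcases le_total 0 c1 with hc | hc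
    · refine W628.CG.vdc hαβ hκ _ _ _ hd1 hd2 hc2 fun t ht => ?_
      have h1 := (abs_le.1 (hnear t ht)).1
      rw [abs_of_nonneg hc] at h1 ⊢
      have h2 : c1 / 2 ≤ (derivative Q).eval t := by linarith
      have h3 : 2 * Real.pi * m * (c1 / 2) ≤ 2 * Real.pi * m * (derivative Q).eval t :=
        mul_le_mul_of_nonneg_left h2 (by positivity)
      linarith
    · refine W628.CG.vdc_neg hαβ hκ _ _ _ hd1 hd2 hc2 fun t ht => ?_
      have h1 := (abs_le.1 (hnear t ht)).2
      rw [abs_of_nonpos hc] at h1 ⊢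
      have h2 : (derivative Q).eval t ≤ c1 / 2 := by linarith
      have h3 : 2 * Real.pi * m * (derivative Q).eval t ≤ 2 * Real.pi * m * (c1 / 2) :=
        mul_le_mul_of_nonneg_left h2 (by positivity)
      linarith
  calc ‖∫ t in α..β, e (m * P t)‖ ^ 2 ≤ (8 / √(Real.pi * m * |c1|)) ^ 2 := by gcongr
    _ = 64 / (Real.pi * m * |c1|) := by
        rw [div_pow, Real.sq_sqrt hκ.le]
        norm_num
    _ ≤ 64 / (m * |c1|) := by
        apply div_le_div_of_nonneg_left (by norm_num) (by positivity)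
        have : 0 < m * |c1| := by positivity
        nlinarith

/-- the integral over a noncritical cell -/
lemma Cell.intB (h : Cell Q x ρ B c0 c1) (hB1 : 32 * B * ρ ^ 2 ≤ |c0|) (hB2 : 2 * ρ * |c1| ≤ |c0|)
    {P : ℝ → ℝ} (hP : ∀ t, HasDerivAt P (Q.eval t) t) {m : ℝ} (hm : 0 < m) {α β : ℝ} (hα : x - ρ ≤ α)
    (hαβ : α ≤ β) (hβ : β ≤ x + ρ) (hlen : β - α ≤ ρ) :
    ‖∫ t in α..β, e (m * P t)‖ ^ 2 ≤ 4 / (m * |c0|) ^ 2 := by
  have hρ := h.hρ
  have hB := h.hB
  have hpi3 := Real.pi_gt_three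
  have hpi0 := Real.pi_pos
  have hc0 : 0 < |c0| := lt_of_lt_of_le (by positivity) hB1
  have hd1 : ∀ t ∈ Icc α β, HasDerivAt (fun t => 2 * Real.pi * m * P t) (2 * Real.pi * m * Q.eval t) t :=
    fun t _ => (hP t).const_mul _
  have hd2 : ∀ t ∈ Icc α β, HasDerivAt (fun t => 2 * Real.pi * m * Q.eval t)
      (2 * Real.pi * m * (derivative Q).eval t) t := fun t _ => (Q.hasDerivAt t).const_mul _
  have hc2 : ContinuousOn (fun t => 2 * Real.pi * m * (derivative Q).eval t) (Icc α β) :=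
    (continuous_const.mul (derivative Q).continuous).continuousOn
  have hc1 : |c1| ≤ |c0| / (2 * ρ) := by rw [le_div_iff₀ (by positivity)]; linarith
  have hBρ : 2 * B * ρ ≤ |c0| / (16 * ρ) := by rw [le_div_iff₀ (by positivity)]; nlinarith
  have hder : ∀ t ∈ Icc (x - ρ) (x + ρ), |(derivative Q).eval t| ≤ 9 / 16 * |c0| / ρ := by
    intro t ht
    have h1 := h.near1 t ⟨by linarith [ht.1], by linarith [ht.2]⟩
    have h2 : |t - x| ≤ ρ := by
      rw [abs_le]
      constructor <;> linarith [ht.1, ht.2]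
    have h3 : 2 * B * |t - x| ≤ 2 * B * ρ := by gcongr
    have h4 : |(derivative Q).eval t| ≤ |(derivative Q).eval t - c1| + |c1| := by
      have := abs_add_le ((derivative Q).eval t - c1) c1
      simpa using this
    have h5 : |c0| / (2 * ρ) + |c0| / (16 * ρ) = 9 / 16 * |c0| / ρ := by
      field_simp
      ring
    linarith
  have hval : ∀ t ∈ Icc α β, 7 / 16 * |c0| ≤ |Q.eval t| := by
    intro t ht
    have ht' : t ∈ Icc (x - ρ) (x + ρ) := ⟨by linarith [ht.1], by linarith [ht.2]⟩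
    have h1 := incr (f := fun t => Q.eval t) (f' := fun t => (derivative Q).eval t) (x := x) (r := ρ)
      hρ.le (fun t _ => Q.hasDerivAt t) hder t ht'
    simp only [h.h0] at h1
    have h2 : |t - x| ≤ ρ := by
      rw [abs_le]
      constructor <;> linarith [ht'.1, ht'.2]
    have h3 : 9 / 16 * |c0| / ρ * |t - x| ≤ 9 / 16 * |c0| / ρ * ρ := by gcongr
    have h4 : 9 / 16 * |c0| / ρ * ρ = 9 / 16 * |c0| := by field_simp
    have h5 : |c0| ≤ |Q.eval t| + |Q.eval t - c0| := by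
      have := abs_sub (Q.eval t) (Q.eval t - c0)
      simpa using this
    linarith
  have hm0 : 0 < 2 * Real.pi * m * (7 / 16 * |c0|) := by positivity
  have hres := osc1 hαβ hm0 _ _ _ hd1 hd2 hc2 (fun t ht => by
      rw [abs_mul, abs_of_pos (by positivity : 0 < 2 * Real.pi * m)]
      exact mul_le_mul_of_nonneg_left (hval t ht) (by positivity))
    (M0 := 2 * Real.pi * m * (9 / 16 * |c0| / ρ)) (fun t ht => by
      rw [abs_mul, abs_of_pos (by positivity : 0 < 2 * Real.pi * m)]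
      exact mul_le_mul_of_nonneg_left (hder t ⟨by linarith [ht.1], by linarith [ht.2]⟩) (by positivity))
  rw [← to_exp] at hres
  have hfin : 2 / (2 * Real.pi * m * (7 / 16 * |c0|)) + 2 * Real.pi * m * (9 / 16 * |c0| / ρ) * (β - α) /
      (2 * Real.pi * m * (7 / 16 * |c0|)) ^ 2 ≤ 2 / (m * |c0|) := by
    have h1 : 2 * Real.pi * m * (9 / 16 * |c0| / ρ) * (β - α) ≤ 2 * Real.pi * m * (9 / 16 * |c0| / ρ) * ρ := by
      gcongr
    have h2 : 2 * Real.pi * m * (9 / 16 * |c0| / ρ) * ρ = 2 * Real.pi * m * (9 / 16 * |c0|) := by field_simp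
    calc 2 / (2 * Real.pi * m * (7 / 16 * |c0|)) + 2 * Real.pi * m * (9 / 16 * |c0| / ρ) * (β - α) /
        (2 * Real.pi * m * (7 / 16 * |c0|)) ^ 2
        ≤ 2 / (2 * Real.pi * m * (7 / 16 * |c0|)) + 2 * Real.pi * m * (9 / 16 * |c0|) /
        (2 * Real.pi * m * (7 / 16 * |c0|)) ^ 2 := by
          rw [← h2]
          gcongr
      _ = (16 / 7 + 72 / 49) / (Real.pi * (m * |c0|)) := by
          field_simp
          ring
      _ ≤ (16 / 7 + 72 / 49) / (3 * (m * |c0|)) := by gcongr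
      _ ≤ 2 / (m * |c0|) := by
          rw [div_le_div_iff₀ (by positivity) (by positivity)]
          have : 0 < m * |c0| := by positivity
          nlinarith
  calc ‖∫ t in α..β, e (m * P t)‖ ^ 2 ≤ (2 / (m * |c0|)) ^ 2 := by
        gcongr
        exact hres.trans hfin
    _ = 4 / (m * |c0|) ^ 2 := by rw [div_pow]; norm_num

end Pool.Agent.W5h30.PW
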