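import Pool.Agent.W5h30.PW.L2
import Pool.Agent.W5h30.SM.Curve
import Pool.Agent.W5h30.SM.Main

/-!
# The joint law of the cells of the powers on an interval (helper30)
-/

set_option autoImplicit false
set_option linter.unusedVariables false

namespace Pool.Agent.W5h30.PW

open Set MeasureTheory
open Pool.Agent.W5h30.LL Pool.Agent.W5h30.SM
open Pool.Agent.Y933.KD (e norm_e)

variable {n : ℕ} {a b : ℝ}

/-- the scaled powers -/
def up (n : ℕ) (m : ℝ) : Fin (n + 1) → ℝ → ℝ := fun j t => m * t ^ ((j : ℕ) + 1)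

/-- the cells of the scaled powers -/
noncomputable def cellp (n m K : ℕ) (t : ℝ) : Fin (n + 1) → ℕ := fun j => cell K (up n m j t)

/-- the event -/
def PVn (a b : ℝ) (n m K : ℕ) (E : Finset (Fin (n + 1) → ℕ)) : Set ℝ := {t | t ∈ Icc a b ∧ cellp n m K t ∈ E}

lemma up_meas (m : ℝ) (j : Fin (n + 1)) : Measurable (up n m j) := by
  unfold up
  fun_prop

lemma cellp_meas (m K : ℕ) : Measurable (cellp n m K) := by
  refine measurable_pi_lambda _ fun j => ?_
  exact (cell_meas K).comp (up_meas m j)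

lemma PVn_meas (m K : ℕ) (E : Finset (Fin (n + 1) → ℕ)) : MeasurableSet (PVn a b n m K E) :=
  measurableSet_Icc.inter (cellp_meas m K E.finite_toSet.measurableSet)

lemma pow_FO (hab : a ≤ b) (j : ℕ) : FO (fun t => t ^ (j + 1)) a b := by
  have hc : ∀ x y : ℝ, ContinuousOn (fun t : ℝ => t ^ (j + 1)) (Icc x y) := fun x y =>
    (continuous_pow _).continuousOn
  have hpos : ∀ x y : ℝ, 0 ≤ x → x ≤ y → FO (fun t => t ^ (j + 1)) x y := by
    intro x y hx hxy
    refine inj_FO hxy (hc x y) fun u hu v hv huv => ?_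
    exact (pow_left_inj₀ (hx.trans hu.1) (hx.trans hv.1) (Nat.succ_ne_zero j)).1 huv
  have hneg : ∀ x y : ℝ, x ≤ y → y ≤ 0 → FO (fun t => t ^ (j + 1)) x y := by
    intro x y hxy hy
    refine inj_FO hxy (hc x y) fun u hu v hv huv => ?_
    have huv' : u ^ (j + 1) = v ^ (j + 1) := huv
    have h1 : (-u) ^ (j + 1) = (-v) ^ (j + 1) := by
      rw [neg_pow, huv', ← neg_pow]
    have h2 := (pow_left_inj₀ (by linarith [hu.2] : (0 : ℝ) ≤ -u) (by linarith [hv.2]) (Nat.succ_ne_zero j)).1 h1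
    linarith
  rcases le_total 0 a with h | h
  · exact hpos a b h hab
  · rcases le_total b 0 with h' | h'
    · exact hneg a b hab h'
    · exact FO.union h h' (hneg a 0 h le_rfl) (hpos 0 b le_rfl h')

/-- few boundary points -/
lemma PVn_off (n : ℕ) (hab : a ≤ b) : ∃ C : ℝ, 0 ≤ C ∧ ∀ m K : ℕ, 1 ≤ m → 1 ≤ K →
    ∃ Q : Finset ℝ, (Q.card : ℝ) ≤ C * ((m : ℝ) * K) ∧
    (∀ x y : ℝ, x < y → (∀ z ∈ Q, z ∉ Icc x y) → (x ∈ Icc a b ↔ y ∈ Icc a b) ∧
      (x ∈ Icc a b → cellp n m K x = cellp n m K y)) := by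
  classical
  have h := fun j : Fin (n + 1) => pow_FO (a := a) (b := b) hab (j : ℕ)
  choose C hC hf using h
  refine ⟨∑ j, C j, Finset.sum_nonneg fun j _ => hC j, fun m K hm hK => ?_⟩
  have h2 := fun j => hf j (m * K) (Nat.mul_pos hm hK)
  choose Q hQ hQ2 using h2
  refine ⟨Finset.univ.biUnion Q, ?_, fun x y hxy hno => ?_⟩
  · have h3 : ((Finset.univ.biUnion Q).card : ℝ) ≤ ∑ j, ((Q j).card : ℝ) := by
      exact_mod_cast Finset.card_biUnion_le
    refine h3.trans ?_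
    rw [Finset.sum_mul]
    refine Finset.sum_le_sum fun j _ => ?_
    have := hQ j
    push_cast at this
    exact this
  · have h3 : ∀ j : Fin (n + 1), (x ∈ Icc a b ↔ y ∈ Icc a b) ∧
        (x ∈ Icc a b → ⌊((m * K : ℕ) : ℝ) * x ^ ((j : ℕ) + 1)⌋ = ⌊((m * K : ℕ) : ℝ) * y ^ ((j : ℕ) + 1)⌋) :=
      fun j : Fin (n + 1) => hQ2 j x y hxy fun z hz => hno z (Finset.mem_biUnion.2 ⟨j, Finset.mem_univ _, hz⟩)
    refine ⟨(h3 0).1, fun hx => ?_⟩
    funext j
    show cell K ((m : ℝ) * x ^ ((j : ℕ) + 1)) = cell K ((m : ℝ) * y ^ ((j : ℕ) + 1))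
    rw [cell_floor _ _ hK, cell_floor _ _ hK, (h3 j).2 hx]

lemma PVn_off' {m K : ℕ} {Q : Finset ℝ} (h : ∀ x y : ℝ, x < y → (∀ z ∈ Q, z ∉ Icc x y) →
    (x ∈ Icc a b ↔ y ∈ Icc a b) ∧ (x ∈ Icc a b → cellp n m K x = cellp n m K y))
    (E : Finset (Fin (n + 1) → ℕ)) : Off Q (PVn a b n m K E) := by
  intro x y hxy hno
  obtain ⟨h1, h2⟩ := h x y hxy hno
  constructor
  · rintro ⟨hx, hE⟩
    exact ⟨h1.1 hx, by rw [← h2 hx]; exact hE⟩
  · rintro ⟨hy, hE⟩
    have hx := h1.2 hy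
    exact ⟨hx, by rw [h2 hx]; exact hE⟩

/-- the joint law on an interval -/
theorem interval_lawn {α ℓ ρ v Wb : ℝ} {M : ℕ} (haα : a ≤ α) (hβb : α + ℓ ≤ b) (hℓ : 0 < ℓ) (hM : 0 < M)
    (hρ : ρ = ℓ / M) (G : Finset ℕ) (hG : ∀ i ∈ G, i < M) (Bad : Set ℝ)
    (hbad : ∀ i < M, i ∉ G → Icc (α + i * ρ) (α + (i + 1) * ρ) ⊆ Bad)
    (hv : volume Bad ≤ ENNReal.ofReal v) (hv0 : 0 ≤ v) (hvℓ : v ≤ ℓ / 2) {m K J : ℕ} (hK : 0 < K)
    (hJ : 0 < J) (hW : ∑ k ∈ (box (rad (fun _ : Fin (n + 1) => K) J)).erase 0,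
      ‖∑ i ∈ G, ∫ t in (α + i * ρ)..(α + (i + 1) * ρ), e (m * Pk k t)‖ ^ 2 ≤ Wb)
    (E : Finset (Fin (n + 1) → ℕ)) (hE : ∀ w ∈ E, ∀ j, w j < K) :
    |volume.real (PVn a b n m K E ∩ Icc α (α + ℓ)) - (E.card : ℝ) / (K : ℝ) ^ (n + 1) * ℓ| ≤
      ((n + 1) * (5 / J) + (4 * (n + 1) + 1) * (2 / ℓ * √Wb)) * ℓ + 2 * v := by
  classical
  have hMR : (0 : ℝ) < M := by exact_mod_cast hM
  have hρ0 : 0 < ρ := by rw [hρ]; positivity
  have hMρ : (M : ℝ) * ρ = ℓ := by rw [hρ]; field_simp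
  set I : ℕ → Set ℝ := fun i => Ioc (α + i * ρ) (α + (i + 1) * ρ) with hI
  set U : Set ℝ := ⋃ i ∈ G, I i with hU
  have hIm : ∀ i, MeasurableSet (I i) := fun i => measurableSet_Ioc
  have hUm : MeasurableSet U := Finset.measurableSet_biUnion _ fun i _ => hIm i
  have hUsub : U ⊆ Ioc α (α + ℓ) := by
    intro t ht
    rw [hU, mem_iUnion₂] at ht
    obtain ⟨i, hi, ht⟩ := ht
    have h2 : ((i : ℝ) + 1) ≤ M := by exact_mod_cast hG i hi
    have h3 : ((i : ℝ) + 1) * ρ ≤ M * ρ := by gcongr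
    have h4 : 0 ≤ (i : ℝ) * ρ := by positivity
    exact ⟨by linarith [ht.1], by linarith [ht.2]⟩
  have hrest : Ioc α (α + ℓ) \ U ⊆ Bad := by
    rintro t ⟨ht, hnU⟩
    obtain ⟨i, hi⟩ : ∃ i : ℕ, i = ⌈(t - α) / ρ⌉₊ - 1 := ⟨_, rfl⟩
    have hpos : 0 < (t - α) / ρ := div_pos (by linarith [ht.1]) hρ0
    have hceil : 0 < ⌈(t - α) / ρ⌉₊ := Nat.ceil_pos.2 hpos
    have hi1 : i + 1 = ⌈(t - α) / ρ⌉₊ := by omega
    have h1 : (t - α) / ρ ≤ (i : ℝ) + 1 := by
      have := Nat.le_ceil ((t - α) / ρ)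
      rw [← hi1] at this
      push_cast at this
      exact this
    have h2 : (i : ℝ) < (t - α) / ρ := by
      have : i < ⌈(t - α) / ρ⌉₊ := by omega
      exact Nat.lt_ceil.1 this
    rw [div_le_iff₀ hρ0] at h1
    rw [lt_div_iff₀ hρ0] at h2
    have hiM : i < M := by
      have h3 : (i : ℝ) * ρ < M * ρ := by rw [hMρ]; linarith [ht.2]
      have h4 : (i : ℝ) < M := lt_of_mul_lt_mul_right h3 hρ0.le
      exact_mod_cast h4
    have htI : t ∈ I i := ⟨by linarith, by linarith⟩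
    have hnG : i ∉ G := by
      intro hiG
      exact hnU (mem_iUnion₂.2 ⟨i, hiG, htI⟩)
    exact hbad i hiM hnG (Ioc_subset_Icc_self htI)
  -- volumes
  have hvolI : volume.real (Ioc α (α + ℓ)) = ℓ := by
    rw [measureReal_def, Real.volume_Ioc, ENNReal.toReal_ofReal (by linarith)]
    ring
  have hBadr : ∀ S : Set ℝ, S ⊆ Bad → volume.real S ≤ v := by
    intro S hS
    rw [measureReal_def]
    exact ENNReal.toReal_le_of_le_ofReal hv0 ((measure_mono hS).trans hv)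
  have hfin : ∀ S : Set ℝ, S ⊆ Ioc α (α + ℓ) → volume S ≠ ⊤ := by
    intro S hS
    have : volume S ≤ volume (Ioc α (α + ℓ)) := measure_mono hS
    refine ne_top_of_le_ne_top ?_ this
    rw [Real.volume_Ioc]
    exact ENNReal.ofReal_ne_top
  obtain ⟨vU, hvU⟩ : ∃ vU : ℝ, vU = volume.real U := ⟨_, rfl⟩
  have hvU1 : vU ≤ ℓ := by
    rw [hvU, ← hvolI]
    exact measureReal_mono hUsub (hfin _ subset_rfl)
  have hvU2 : ℓ - v ≤ vU := by
    have h1 : volume.real (Ioc α (α + ℓ) \ U) = ℓ - vU := by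
      rw [measureReal_sdiff hUsub hUm (hfin _ subset_rfl), hvolI, hvU]
    have h2 := hBadr _ hrest
    linarith
  have hvU0 : 0 < vU := by linarith
  -- the measure
  have hvolU : volume U = ENNReal.ofReal vU := by
    rw [hvU, measureReal_def, ENNReal.ofReal_toReal (hfin U hUsub)]
  set μ : Measure ℝ := (volume U)⁻¹ • volume.restrict U with hμ
  have hμp : IsProbabilityMeasure μ := by
    constructor
    rw [hμ, Measure.smul_apply, Measure.restrict_apply_univ, smul_eq_mul]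
    refine ENNReal.inv_mul_cancel ?_ (hfin U hUsub)
    rw [hvolU]
    simp [hvU0]
  have hcoef : ((volume U)⁻¹).toReal = vU⁻¹ := by
    rw [ENNReal.toReal_inv, hvolU, ENNReal.toReal_ofReal hvU0.le]
  have hsm := smooth μ (fun _ : Fin (n + 1) => K) (fun _ => hK) hJ (up n m) (fun j => up_meas _ j) E hE
  have hleft : ∫ ω, (if (fun j => cell K (up n m j ω)) ∈ E then (1 : ℝ) else 0) ∂μ =
      vU⁻¹ * volume.real ({t | cellp n m K t ∈ E} ∩ U) := by
    rw [hμ, integral_smul_measure, hcoef, smul_eq_mul]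
    congr 1
    have hms : MeasurableSet {t | cellp n m K t ∈ E} := cellp_meas m K E.finite_toSet.measurableSet
    have h1 : (fun ω => if (fun j => cell K (up n m j ω)) ∈ E then (1 : ℝ) else 0) =
        {t | cellp n m K t ∈ E}.indicator 1 := by
      funext t
      rw [indicator_apply]
      rfl
    rw [h1, integral_indicator_one hms, measureReal_restrict_apply hms]
  rw [hleft] at hsm
  -- the Fourier coefficients
  have hdisj : (G : Set ℕ).Pairwise (Function.onFun Disjoint I) := by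
    intro i _ j _ hij
    rw [Function.onFun, Set.disjoint_left]
    intro t hti htj
    rcases lt_or_gt_of_ne hij with h | h
    · have h1 : ((i : ℝ) + 1) ≤ j := by exact_mod_cast h
      have h2 : ((i : ℝ) + 1) * ρ ≤ j * ρ := by gcongr
      linarith [hti.2, htj.1]
    · have h1 : ((j : ℝ) + 1) ≤ i := by exact_mod_cast h
      have h2 : ((j : ℝ) + 1) * ρ ≤ i * ρ := by gcongr
      linarith [hti.1, htj.2]
  have hhat : ∀ k : Fin (n + 1) → ℤ, hat μ (up n m) k = ((vU⁻¹ : ℝ) : ℂ) *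
      ∑ i ∈ G, ∫ t in (α + i * ρ)..(α + (i + 1) * ρ), e (m * Pk k t) := by
    intro k
    unfold hat
    have hfun : (fun ω => e (∑ j, (k j : ℝ) * up n m j ω)) = fun ω => e (m * Pk k ω) := by
      funext t
      congr 1
      unfold up Pk
      rw [Finset.mul_sum]
      refine Finset.sum_congr rfl fun j _ => ?_
      ring
    rw [hfun, hμ, integral_smul_measure, hcoef, Complex.real_smul]
    congr 1
    have hcont : Continuous fun ω => e (m * Pk k ω) := by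
      have h1 : Continuous (e : ℝ → ℂ) := by
        unfold e
        fun_prop
      exact h1.comp (continuous_const.mul (Pk_cont k))
    rw [hU, integral_biUnion_finset G (fun i _ => hIm i) hdisj (fun i _ =>
      (hcont.integrableOn_Icc (a := α + i * ρ) (b := α + (i + 1) * ρ)).mono_set Ioc_subset_Icc_self)]
    refine Finset.sum_congr rfl fun i _ => ?_
    rw [intervalIntegral.integral_of_le (by nlinarith)]
  have hD2 : D2 μ (up n m) (fun _ => K) J ≤ 2 / ℓ * √Wb := by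
    have h0 : 0 ≤ 2 / ℓ := by positivity
    rw [← Real.sqrt_sq h0, ← Real.sqrt_mul (by positivity)]
    unfold D2
    refine Real.sqrt_le_sqrt ?_
    have h1 : ∀ k ∈ (box (rad (fun _ : Fin (n + 1) => K) J)).erase 0, ‖hat μ (up n m) k‖ ^ 2 =
        (vU⁻¹) ^ 2 * ‖∑ i ∈ G, ∫ t in (α + i * ρ)..(α + (i + 1) * ρ), e (m * Pk k t)‖ ^ 2 := by
      intro k _
      rw [hhat k, norm_mul, Complex.norm_real, Real.norm_eq_abs, abs_of_pos (inv_pos.2 hvU0), mul_pow]
    rw [Finset.sum_congr rfl h1, ← Finset.mul_sum]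
    have h2 : vU⁻¹ ≤ 2 / ℓ := by
      rw [inv_eq_one_div, div_le_div_iff₀ hvU0 hℓ]
      linarith
    have h3 : (vU⁻¹) ^ 2 ≤ (2 / ℓ) ^ 2 := pow_le_pow_left₀ (by positivity) h2 2
    exact mul_le_mul h3 hW (Finset.sum_nonneg fun _ _ => by positivity) (by positivity)
  -- conclusion
  obtain ⟨e0, he0⟩ : ∃ e0 : ℝ, e0 = (E.card : ℝ) / (K : ℝ) ^ (n + 1) := ⟨_, rfl⟩
  have hprod : ∏ _j : Fin (n + 1), (K : ℝ) = (K : ℝ) ^ (n + 1) := by
    rw [Finset.prod_const, Finset.card_univ, Fintype.card_fin]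
  rw [hprod, ← he0, Fintype.card_fin] at hsm
  rw [← he0]
  have hKR : (0 : ℝ) < K := by exact_mod_cast hK
  have he00 : 0 ≤ e0 := by rw [he0]; positivity
  have he01 : e0 ≤ 1 := by
    have h1 : E ⊆ Fintype.piFinset fun _ : Fin (n + 1) => Finset.range K := by
      intro w hw
      rw [Fintype.mem_piFinset]
      intro j
      rw [Finset.mem_range]
      exact hE w hw j
    have h2 := Finset.card_le_card h1
    rw [Fintype.card_piFinset] at h2
    simp only [Finset.card_range, Finset.prod_const, Finset.card_univ, Fintype.card_fin] at h2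
    rw [he0, div_le_one (by positivity)]
    exact_mod_cast h2
  obtain ⟨w1, hw1⟩ : ∃ w1 : ℝ, w1 = volume.real ({t | cellp n m K t ∈ E} ∩ U) := ⟨_, rfl⟩
  rw [← hw1] at hsm
  have hsplit : volume.real (PVn a b n m K E ∩ Icc α (α + ℓ)) = w1 +
      volume.real (({t | cellp n m K t ∈ E} ∩ Ioc α (α + ℓ)) \ U) := by
    have h1 : volume.real (PVn a b n m K E ∩ Icc α (α + ℓ)) =
        volume.real ({t | cellp n m K t ∈ E} ∩ Ioc α (α + ℓ)) := by
      have h2 : PVn a b n m K E ∩ Icc α (α + ℓ) = {t | cellp n m K t ∈ E} ∩ Icc α (α + ℓ) := by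
        ext t
        constructor
        · rintro ⟨⟨_, h3⟩, h4⟩
          exact ⟨h3, h4⟩
        · rintro ⟨h3, h4⟩
          exact ⟨⟨⟨haα.trans h4.1, h4.2.trans hβb⟩, h3⟩, h4⟩
      rw [h2]
      refine measureReal_congr ?_
      exact (ae_eq_refl _).inter Ioc_ae_eq_Icc.symm
    have hms : MeasurableSet {t | cellp n m K t ∈ E} := cellp_meas m K E.finite_toSet.measurableSet
    rw [h1, hw1]
    have h3 : {t | cellp n m K t ∈ E} ∩ U = ({t | cellp n m K t ∈ E} ∩ Ioc α (α + ℓ)) ∩ U := by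
      ext t
      constructor
      · rintro ⟨h4, h5⟩
        exact ⟨⟨h4, hUsub h5⟩, h5⟩
      · rintro ⟨⟨h4, _⟩, h5⟩
        exact ⟨h4, h5⟩
    rw [h3]
    exact (measureReal_inter_add_sdiff hUm (hfin _ inter_subset_right)).symm
  obtain ⟨w2, hw2⟩ : ∃ w2 : ℝ, w2 = volume.real (({t | cellp n m K t ∈ E} ∩ Ioc α (α + ℓ)) \ U) := ⟨_, rfl⟩
  have hw2v : w2 ≤ v := by
    rw [hw2]
    refine hBadr _ ?_
    intro t ht
    exact hrest ⟨ht.1.2, ht.2⟩
  have hw20 : 0 ≤ w2 := by rw [hw2]; exact measureReal_nonneg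
  rw [hsplit, ← hw2]
  obtain ⟨δ, hδ⟩ : ∃ δ : ℝ, δ = (n + 1) * (5 / J) + (4 * (n + 1) + 1) * (2 / ℓ * √Wb) := ⟨_, rfl⟩
  have hδ2 : |vU⁻¹ * w1 - e0| ≤ δ := by
    refine hsm.trans ?_
    rw [hδ]
    push_cast
    have h1 : ((4 : ℝ) * (n + 1) + 1) * D2 μ (up n m) (fun _ => K) J ≤ (4 * (n + 1) + 1) * (2 / ℓ * √Wb) :=
      mul_le_mul_of_nonneg_left hD2 (by positivity)
    linarith
  have hδ0 : 0 ≤ δ := (abs_nonneg _).trans hδ2
  rw [← hδ]
  have h1 : |w1 - e0 * vU| ≤ δ * ℓ := by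
    have h2 : w1 - e0 * vU = (vU⁻¹ * w1 - e0) * vU := by field_simp
    rw [h2, abs_mul, abs_of_pos hvU0]
    exact mul_le_mul hδ2 hvU1 hvU0.le hδ0
  have h2 := abs_le.1 h1
  have h3 : 0 ≤ e0 * (ℓ - vU) := mul_nonneg he00 (by linarith)
  have h4 : e0 * (ℓ - vU) ≤ v := by
    have : e0 * (ℓ - vU) ≤ 1 * (ℓ - vU) := mul_le_mul_of_nonneg_right he01 (by linarith)
    linarith
  rw [abs_le]
  constructor <;> nlinarith

end Pool.Agent.W5h30.PW
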