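import Pool.Agent.W5h30.LL.Good

/-!
# Quantitative nondivergence with general weights (helper30)
-/

set_option autoImplicit false

namespace Pool.Agent.W5h30.PW

open Polynomial MeasureTheory Set
open Pool.Agent.W5h30.LL

/-- the Taylor coefficients at `x` of the polynomial with coefficients `u` -/
noncomputable def tc {n : ℕ} (u : Fin (n + 1) → ℝ) (x : ℝ) (k : ℕ) : ℝ := (taylor x (pv u)).coeff k

/-- no short vectors at `x` -/
def GP {n : ℕ} (w : Fin (n + 1) → ℝ) (x : ℝ) : Prop :=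
  ∀ u : Fin (n + 1) → ℤ, u ≠ 0 → ∃ k : Fin (n + 1), w k ≤ |tc (fun i => (u i : ℝ)) x k|

lemma GP.shift {n : ℕ} {w : Fin (n + 1) → ℝ} {x : ℝ} (m : ℤ) (h : GP w (x - m)) : GP w x := by
  intro u hu
  set L : ℤ[X] := taylor m (Helper404.toP u) with hL
  have hdeg : L.natDegree ≤ n := by rw [hL, natDegree_taylor]; exact toP_natDegree u
  have hcoef : ∀ i : Fin (n + 1), (Helper404.toP u).coeff i = u i := by
    intro i
    have h1 := congrArg (fun p : ℝ[X] => p.coeff i) (toP_pv u)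
    simp only [coeff_map, eq_intCast] at h1
    rw [pv_coeff (fun i => (u i : ℝ)) i] at h1
    exact_mod_cast h1
  have hL0 : L ≠ 0 := by
    intro h0
    rw [hL] at h0
    have h1 : Helper404.toP u = 0 := by
      have := taylor_injective m
      exact this (by rw [h0, map_zero])
    apply hu
    funext i
    rw [← hcoef i, h1]
    simp
  have hu' : (fun i : Fin (n + 1) => L.coeff i) ≠ 0 := by
    intro h0
    apply hL0
    ext j
    rcases le_or_gt j n with hj | hj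
    · exact congrFun h0 ⟨j, by omega⟩
    · rw [coeff_eq_zero_of_natDegree_lt (by omega), coeff_zero]
  obtain ⟨k, hk⟩ := h (fun i => L.coeff i) hu'
  refine ⟨k, hk.trans (le_of_eq ?_)⟩
  congr 1
  unfold tc
  have h1 : pv (fun i : Fin (n + 1) => ((L.coeff i : ℤ) : ℝ)) = L.map (Int.castRingHom ℝ) := by
    have h2 := pv_of (d := n) (c := L.map (Int.castRingHom ℝ)) (natDegree_map_le.trans hdeg)
    rw [← h2]
    congr 1
    funext i
    rw [coeff_map]
    rfl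
  rw [h1, hL, ← taylor_map_int, taylor_taylor, toP_pv]
  congr 2
  ring_nf

/-- **quantitative nondivergence** -/
theorem gp_measure (n : ℕ) (hn : 1 ≤ n) : ∃ C : ℝ, 1 ≤ C ∧ ∀ w : Fin (n + 1) → ℝ, (∀ k, 0 < w k) →
    (∀ j : ℕ, 1 ≤ j → ∀ hj : j ≤ n + 1, ∏ b : Fin j, w (Fin.castLE hj b) ≤ 1) →
    ∀ ε : ℝ, 0 < ε → ε ≤ 1 → ∀ m : ℤ,
      volume {x ∈ Ico (m : ℝ) (m + 1) | ¬ GP (fun k => ε / C * w k) x} ≤
        ENNReal.ofReal (C * ε ^ (1 / (((n + 1) * n : ℕ) : ℝ))) := by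
  obtain ⟨ρ, hρ⟩ : ∃ ρ : ℝ, ρ = 1 / ((((n + 1) * n : ℕ) : ℝ) + 1) ^ ((n + 1) * n) := ⟨_, rfl⟩
  have hbase : (1 : ℝ) ≤ ((((n + 1) * n : ℕ) : ℝ) + 1) := by
    have : (0 : ℝ) ≤ (((n + 1) * n : ℕ) : ℝ) := Nat.cast_nonneg _
    linarith
  have hρ0 : 0 < ρ := by rw [hρ]; positivity
  have hρ1 : ρ ≤ 1 := by
    rw [hρ, div_le_one (by positivity)]
    exact one_le_pow₀ hbase
  obtain ⟨C1, hC1⟩ : ∃ C1 : ℝ, C1 = Helper404.kmC (4 * (((n + 1) * n : ℕ) + 1) ^ 2) (n + 1) * 3 := ⟨_, rfl⟩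
  refine ⟨max 1 (max C1 ((n + 1) / ρ)), le_max_left _ _, ?_⟩
  intro w hw0 hwp ε hε hε1 m
  obtain ⟨C, hC⟩ : ∃ C : ℝ, C = max 1 (max C1 ((n + 1) / ρ)) := ⟨_, rfl⟩
  have hCn : (n + 1) / ρ ≤ C := by rw [hC]; exact (le_max_right _ _).trans (le_max_right _ _)
  have hC1' : C1 ≤ C := by rw [hC]; exact (le_max_left _ _).trans (le_max_right _ _)
  have hC0 : 1 ≤ C := by rw [hC]; exact le_max_left _ _
  rw [← hC]
  have hkm := Helper404.km_concrete w hn hw0 ρ hρ0 (by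
    intro j hj1 hj
    calc ρ ^ j * ∏ b : Fin j, w (Fin.castLE hj b) ≤ ρ ^ j * 1 :=
          mul_le_mul_of_nonneg_left (hwp j hj1 hj) (by positivity)
      _ ≤ ρ := by
          rw [mul_one]
          exact pow_le_of_le_one hρ0.le hρ1 (by omega)
      _ = _ := hρ) ε hε hε1
  have hsub : {x ∈ Ico (m : ℝ) (m + 1) | ¬ GP (fun k => ε / C * w k) x} ⊆
      (fun x => x + (-(m : ℝ))) ⁻¹' {z ∈ Ico (-1 : ℝ) 2 | ∃ u : Fin (n + 1) → ℤ, u ≠ 0 ∧
        ∀ k : Fin (n + 1), (n + 1) * |((hasseDeriv (k : ℕ) (Helper404.toP u)).map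
          (Int.castRingHom ℝ)).eval z| < ε * ρ * w k} := by
    rintro x ⟨hx, hnc⟩
    refine ⟨⟨by simp only; linarith [hx.1], by simp only; linarith [hx.2]⟩, ?_⟩
    by_contra hcon
    push Not at hcon
    apply hnc
    apply GP.shift m
    intro u hu
    obtain ⟨k, hk⟩ := hcon u hu
    refine ⟨k, ?_⟩
    have e1 : ((hasseDeriv (k : ℕ) (Helper404.toP u)).map (Int.castRingHom ℝ)).eval (x + -(m : ℝ)) =
        tc (fun i => (u i : ℝ)) (x - m) k := by
      unfold tc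
      rw [taylor_coeff, ← toP_pv, hd_map, sub_eq_add_neg]
    rw [e1] at hk
    have hn0 : (0 : ℝ) < (n : ℝ) + 1 := by positivity
    have hCpos : 0 < C := by linarith
    have h5 : ε / C * w k * (n + 1) ≤ ε * ρ * w k := by
      have h6 : ((n : ℝ) + 1) ≤ C * ρ := by rwa [div_le_iff₀ hρ0] at hCn
      have h7 : ε / C * w k * (n + 1) ≤ ε / C * w k * (C * ρ) :=
        mul_le_mul_of_nonneg_left h6 (by have := (hw0 k).le; positivity)
      refine h7.trans (le_of_eq ?_)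
      field_simp
    have h8 : ε / C * w k * (n + 1) ≤ |tc (fun i => (u i : ℝ)) (x - m) k| * (n + 1) := by linarith
    exact le_of_mul_le_mul_right h8 hn0
  refine (measure_mono hsub).trans ?_
  rw [measure_preimage_add_right]
  refine hkm.trans (ENNReal.ofReal_le_ofReal ?_)
  have h5 : Helper404.kmC (4 * (((n + 1) * n : ℕ) + 1) ^ 2) (n + 1) *
      ε ^ (1 / (((n + 1) * n : ℕ) : ℝ)) * 3 = C1 * ε ^ (1 / (((n + 1) * n : ℕ) : ℝ)) := by
    rw [hC1]; ring
  rw [h5]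
  exact mul_le_mul_of_nonneg_right hC1' (by positivity)

/-- initial products of increasing weights -/
lemma part_le {n : ℕ} (w : Fin (n + 1) → ℝ) (hw0 : ∀ k, 0 < w k) (hmono : Monotone w)
    (hprod : ∏ k, w k ≤ 1) (j : ℕ) (hj1 : 1 ≤ j) (hj : j ≤ n + 1) :
    ∏ b : Fin j, w (Fin.castLE hj b) ≤ 1 := by
  classical
  have himg : ∏ b : Fin j, w (Fin.castLE hj b) = ∏ k ∈ Finset.univ.filter (fun k : Fin (n + 1) => (k : ℕ) < j), w k := by
    refine Finset.prod_bij (fun b _ => Fin.castLE hj b) ?_ ?_ ?_ ?_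
    · intro b _
      simp
    · intro b _ b' _ h
      exact Fin.castLE_injective hj h
    · intro k hk
      rw [Finset.mem_filter] at hk
      exact ⟨⟨k, hk.2⟩, Finset.mem_univ _, Fin.ext rfl⟩
    · intro b _
      rfl
  rw [himg]
  obtain ⟨k0, hk0⟩ : ∃ k0 : Fin (n + 1), (k0 : ℕ) = j - 1 := ⟨⟨j - 1, by omega⟩, rfl⟩
  rcases le_or_gt (w k0) 1 with h1 | h1
  · refine Finset.prod_le_one (fun k _ => (hw0 k).le) fun k hk => ?_
    rw [Finset.mem_filter] at hk
    refine (hmono ?_).trans h1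
    rw [Fin.le_def]
    omega
  · have hsplit := Finset.prod_filter_mul_prod_filter_not (Finset.univ : Finset (Fin (n + 1)))
      (fun k : Fin (n + 1) => (k : ℕ) < j) w
    have h2 : 1 ≤ ∏ k ∈ Finset.univ.filter (fun k : Fin (n + 1) => ¬ (k : ℕ) < j), w k := by
      refine Finset.one_le_prod (fun k hk => ?_)
      rw [Finset.mem_filter] at hk
      refine h1.le.trans (hmono ?_)
      rw [Fin.le_def]
      omega
    have h3 : 0 ≤ ∏ k ∈ Finset.univ.filter (fun k : Fin (n + 1) => (k : ℕ) < j), w k :=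
      Finset.prod_nonneg fun k _ => (hw0 k).le
    calc ∏ k ∈ Finset.univ.filter (fun k : Fin (n + 1) => (k : ℕ) < j), w k
        ≤ (∏ k ∈ Finset.univ.filter (fun k : Fin (n + 1) => (k : ℕ) < j), w k) *
          ∏ k ∈ Finset.univ.filter (fun k : Fin (n + 1) => ¬ (k : ℕ) < j), w k :=
          le_mul_of_one_le_right h3 h2
      _ = ∏ k, w k := hsplit
      _ ≤ 1 := hprod

end Pool.Agent.W5h30.PW
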