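import Pool.Agent.W5h30.PW.CellInt
import Pool.Agent.W5h30.MU.Rel

/-!
# Square mean of the Fourier coefficients over the good cells (helper30)
-/

set_option autoImplicit false
set_option linter.unusedVariables false

namespace Pool.Agent.W5h30.PW

open Polynomial Set
open Pool.Agent.W5h30.LL
open Pool.Agent.Y933.KD (e)

variable {n : ℕ}

/-- the coefficients of the derivative -/
def uk (k : Fin (n + 1) → ℤ) : Fin (n + 1) → ℤ := fun j => (((j : ℕ) : ℤ) + 1) * k j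

lemma uk_inj : Function.Injective (uk (n := n)) := by
  intro k l h
  funext j
  have h1 := congrFun h j
  unfold uk at h1
  have h2 : (((j : ℕ) : ℤ) + 1) ≠ 0 := by positivity
  exact mul_left_cancel₀ h2 h1

lemma uk_ne {k : Fin (n + 1) → ℤ} (hk : k ≠ 0) : uk k ≠ 0 := by
  intro h
  apply hk
  apply uk_inj
  rw [h]
  funext j
  simp [uk]

/-- the phase -/
noncomputable def Pk (k : Fin (n + 1) → ℤ) (t : ℝ) : ℝ := ∑ j, (k j : ℝ) * t ^ ((j : ℕ) + 1)

/-- its derivative -/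
noncomputable def Qk (k : Fin (n + 1) → ℤ) : ℝ[X] := pv (fun j => (uk k j : ℝ))

lemma Pk_deriv (k : Fin (n + 1) → ℤ) (t : ℝ) : HasDerivAt (Pk k) ((Qk k).eval t) t := by
  have h1 : (Qk k).eval t = ∑ j, (k j : ℝ) * ((((j : ℕ) + 1 : ℕ) : ℝ) * t ^ (j : ℕ)) := by
    unfold Qk pv
    rw [eval_finsetSum]
    refine Finset.sum_congr rfl fun j _ => ?_
    unfold uk
    simp only [eval_mul, eval_C, eval_pow, eval_X]
    push_cast
    ring
  rw [h1]
  have h2 : Pk k = fun t => ∑ j, (k j : ℝ) * t ^ ((j : ℕ) + 1) := rfl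
  rw [h2]
  refine HasDerivAt.fun_sum fun j _ => ?_
  have h3 := (hasDerivAt_pow ((j : ℕ) + 1) t).const_mul (k j : ℝ)
  simpa using h3

lemma Pk_cont (k : Fin (n + 1) → ℤ) : Continuous (Pk k) := by
  unfold Pk
  fun_prop

lemma Qk_ne {k : Fin (n + 1) → ℤ} (hk : k ≠ 0) : Qk k ≠ 0 := by
  intro h0
  apply uk_ne hk
  funext j
  have h1 := pv_coeff (fun j => (uk k j : ℝ)) j
  have h2 : (pv (fun j => (uk k j : ℝ))).coeff j = 0 := by
    have : pv (fun j => (uk k j : ℝ)) = 0 := h0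
    rw [this, coeff_zero]
  rw [h2] at h1
  have h3 : ((uk k j : ℤ) : ℝ) = 0 := h1.symm
  exact_mod_cast h3

lemma Qk_deg (k : Fin (n + 1) → ℤ) : (Qk k).natDegree ≤ n := pv_natDegree _

lemma tc_le {R T : ℝ} (hR : 1 ≤ R) (hT : 0 ≤ T) (u : Fin (n + 1) → ℝ) (hu : ∀ j, |u j| ≤ T) {t : ℝ}
    (ht : |t| ≤ R) (i : ℕ) : |tc u t i| ≤ (n + 1) * 2 ^ n * R ^ n * T := by
  rcases le_or_gt i n with hi | hi
  · have h1 := pv_taylor u t ⟨i, by omega⟩
    unfold tc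
    have h2 : (taylor t (pv u)).coeff i = (Tm n t).mulVec u ⟨i, by omega⟩ := h1
    rw [h2, Matrix.mulVec, dotProduct]
    refine (Finset.abs_sum_le_sum_abs _ _).trans ?_
    have h3 : ∀ j ∈ (Finset.univ : Finset (Fin (n + 1))), |Tm n t ⟨i, by omega⟩ j * u j| ≤ 2 ^ n * R ^ n * T := by
      intro j _
      rw [abs_mul]
      refine mul_le_mul ?_ (hu j) (abs_nonneg _) (by positivity)
      unfold Tm
      rw [Matrix.of_apply, abs_mul, Nat.abs_cast, abs_pow]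
      have h4 : (((j : ℕ).choose i : ℕ) : ℝ) ≤ 2 ^ n := by
        have h5 : (j : ℕ).choose i ≤ 2 ^ (j : ℕ) := Nat.choose_le_two_pow _ _
        have h6 : 2 ^ (j : ℕ) ≤ 2 ^ n := Nat.pow_le_pow_right (by norm_num) (by omega)
        exact_mod_cast h5.trans h6
      have h5 : |t| ^ ((j : ℕ) - i) ≤ R ^ n :=
        (pow_le_pow_left₀ (abs_nonneg _) ht _).trans (pow_le_pow_right₀ hR (by omega))
      exact mul_le_mul h4 h5 (by positivity) (by positivity)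
    refine (Finset.sum_le_sum h3).trans ?_
    rw [Finset.sum_const, Finset.card_univ, Fintype.card_fin, nsmul_eq_mul]
    push_cast
    linarith
  · have h1 : tc u t i = 0 := by
      unfold tc
      apply coeff_eq_zero_of_natDegree_lt
      rw [natDegree_taylor]
      exact lt_of_le_of_lt (pv_natDegree _) hi
    rw [h1, abs_zero]
    positivity

lemma tc_zero (u : Fin (n + 1) → ℝ) (t : ℝ) : tc u t 0 = (pv u).eval t := by
  unfold tc
  rw [taylor_coeff_zero]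

lemma tc_one (u : Fin (n + 1) → ℝ) (t : ℝ) : tc u t 1 = (derivative (pv u)).eval t := by
  unfold tc
  rw [taylor_coeff_one]

lemma tc_two (u : Fin (n + 1) → ℝ) (t : ℝ) : (derivative (derivative (pv u))).eval t = 2 * tc u t 2 := by
  unfold tc
  rw [taylor_coeff]
  have h := congrFun (factorial_smul_hasseDeriv (R := ℝ) 2) (pv u)
  have h2 : (derivative^[2] (pv u)) = derivative (derivative (pv u)) := rfl
  rw [← h2, ← h]
  simp [Nat.factorial]

open Classical in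
/-- dyadic summation -/
lemma dyadic {κ : Type} (S : Finset κ) (a F : κ → ℝ) {α0 : ℝ} (hα : 0 < α0) (L : ℕ)
    (N G : ℕ → ℝ) (h1 : ∀ k ∈ S, α0 < a k) (h2 : ∀ k ∈ S, a k ≤ α0 * 2 ^ L) (hG0 : ∀ l, 0 ≤ G l)
    (h3 : ∀ l < L, ((S.filter (fun k => a k ≤ α0 * 2 ^ (l + 1))).card : ℝ) ≤ N l)
    (h4 : ∀ k ∈ S, ∀ l < L, α0 * 2 ^ l < a k → a k ≤ α0 * 2 ^ (l + 1) → F k ≤ G l) :
    ∑ k ∈ S, F k ≤ ∑ l ∈ Finset.range L, N l * G l := by
  have hex : ∀ k : κ, ∃ l : ℕ, k ∈ S → l < L ∧ α0 * 2 ^ l < a k ∧ a k ≤ α0 * 2 ^ (l + 1) := by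
    intro k
    by_cases hk : k ∈ S
    · have hP : ∃ l : ℕ, a k ≤ α0 * 2 ^ l := ⟨L, h2 k hk⟩
      have hf1 := Nat.find_spec hP
      have hf2 : ∀ l < Nat.find hP, α0 * 2 ^ l < a k := fun l hl => not_le.1 (Nat.find_min hP hl)
      have hf3 : Nat.find hP ≤ L := Nat.find_min' hP (h2 k hk)
      have hf4 : Nat.find hP ≠ 0 := by
        intro h0
        rw [h0, pow_zero, mul_one] at hf1
        linarith [h1 k hk]
      refine ⟨Nat.find hP - 1, fun _ => ⟨by omega, hf2 _ (by omega), ?_⟩⟩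
      rw [Nat.sub_add_cancel (Nat.one_le_iff_ne_zero.2 hf4)]
      exact hf1
    · exact ⟨0, fun h => absurd h hk⟩
  choose lv hlv using hex
  rw [← Finset.sum_fiberwise_of_maps_to (s := S) (t := Finset.range L) (g := lv)
    (fun k hk => Finset.mem_range.2 (hlv k hk).1)]
  refine Finset.sum_le_sum fun l hl => ?_
  rw [Finset.mem_range] at hl
  have h5 : ∀ k ∈ S.filter (fun k => lv k = l), F k ≤ G l := by
    intro k hk
    rw [Finset.mem_filter] at hk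
    obtain ⟨b1, b2, b3⟩ := hlv k hk.1
    rw [hk.2] at b1 b2 b3
    exact h4 k hk.1 l b1 b2 b3
  refine (Finset.sum_le_sum h5).trans ?_
  rw [Finset.sum_const, nsmul_eq_mul]
  refine mul_le_mul_of_nonneg_right (le_trans ?_ (h3 l hl)) (hG0 l)
  have h6 : S.filter (fun k => lv k = l) ⊆ S.filter (fun k => a k ≤ α0 * 2 ^ (l + 1)) := by
    intro k hk
    rw [Finset.mem_filter] at hk ⊢
    refine ⟨hk.1, ?_⟩
    have := (hlv k hk.1).2.2
    rwa [hk.2] at this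
  exact_mod_cast Finset.card_le_card h6

/-- the square of a sum over two kinds of cells -/
lemma split_sq {ι : Type} [DecidableEq ι] (G : Finset ι) (z : ι → ℂ) (A : Finset ι) (hA : A ⊆ G) {a M : ℝ}
    (ha : (A.card : ℝ) ≤ a) (hM : (G.card : ℝ) ≤ M) :
    ‖∑ i ∈ G, z i‖ ^ 2 ≤ 2 * a * ∑ i ∈ A, ‖z i‖ ^ 2 + 2 * M * ∑ i ∈ G \ A, ‖z i‖ ^ 2 := by
  have h1 : ∑ i ∈ G, z i = ∑ i ∈ G \ A, z i + ∑ i ∈ A, z i := (Finset.sum_sdiff hA).symm
  have cs : ∀ S : Finset ι, ‖∑ i ∈ S, z i‖ ^ 2 ≤ S.card * ∑ i ∈ S, ‖z i‖ ^ 2 := by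
    intro S
    have h2 : ‖∑ i ∈ S, z i‖ ≤ ∑ i ∈ S, ‖z i‖ := norm_sum_le _ _
    have h3 := sq_sum_le_card_mul_sum_sq (s := S) (f := fun i => ‖z i‖)
    exact (pow_le_pow_left₀ (norm_nonneg _) h2 2).trans h3
  have h2 := cs A
  have h3 := cs (G \ A)
  have h4 : 0 ≤ ∑ i ∈ A, ‖z i‖ ^ 2 := Finset.sum_nonneg fun _ _ => by positivity
  have h5 : 0 ≤ ∑ i ∈ G \ A, ‖z i‖ ^ 2 := Finset.sum_nonneg fun _ _ => by positivity
  have h6 : ((G \ A).card : ℝ) ≤ M := by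
    have : ((G \ A).card : ℝ) ≤ G.card := by exact_mod_cast Finset.card_le_card Finset.sdiff_subset
    linarith
  have h7 := mul_le_mul_of_nonneg_right ha h4
  have h8 := mul_le_mul_of_nonneg_right h6 h5
  rw [h1]
  have h9 := norm_add_le (∑ i ∈ G \ A, z i) (∑ i ∈ A, z i)
  have h10 : ‖∑ i ∈ G \ A, z i + ∑ i ∈ A, z i‖ ^ 2 ≤ (‖∑ i ∈ G \ A, z i‖ + ‖∑ i ∈ A, z i‖) ^ 2 :=
    pow_le_pow_left₀ (norm_nonneg _) h9 2
  nlinarith [sq_nonneg (‖∑ i ∈ G \ A, z i‖ - ‖∑ i ∈ A, z i‖)]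

open Classical in
/-- few critical cells -/
lemma crit_card {Q : ℝ[X]} (hQ : Q ≠ 0) (hdeg : Q.natDegree ≤ n) {α ρ : ℝ} (hρ : 0 < ρ) (A : Finset ℕ)
    (X : ℕ → ℝ) (hX : ∀ i ∈ A, X i ∈ Icc (α + i * ρ) (α + (i + 1) * ρ))
    (hroot : ∀ i ∈ A, ∃ ζ ∈ Icc (X i - 4 * ρ) (X i + 4 * ρ), Q.eval ζ = 0) : A.card ≤ 11 * n := by
  have hex : ∀ i : ℕ, ∃ ζ : ℝ, i ∈ A → ζ ∈ Icc (X i - 4 * ρ) (X i + 4 * ρ) ∧ Q.eval ζ = 0 := by
    intro i
    by_cases hi : i ∈ A
    · obtain ⟨ζ, h1, h2⟩ := hroot i hi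
      exact ⟨ζ, fun _ => ⟨h1, h2⟩⟩
    · exact ⟨0, fun h => absurd h hi⟩
  choose ζ hζ using hex
  have hmaps : ∀ i ∈ A, ζ i ∈ Q.roots.toFinset := by
    intro i hi
    rw [Multiset.mem_toFinset, mem_roots hQ]
    exact (hζ i hi).2
  have hfib : ∀ b ∈ Q.roots.toFinset, (A.filter (fun i => ζ i = b)).card ≤ 11 := by
    intro b _
    have h2 : ((A.filter (fun i => ζ i = b)).image (fun i : ℕ => (i : ℤ))).card =
        (A.filter (fun i => ζ i = b)).card := Finset.card_image_of_injective _ Nat.cast_injective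
    rw [← h2]
    have h3 := MU.cnt_near ((A.filter (fun i => ζ i = b)).image (fun i : ℕ => (i : ℤ))) ((b - α) / ρ) 5
      (by norm_num) (fun w hw => by
        rw [Finset.mem_image] at hw
        obtain ⟨i, hi, rfl⟩ := hw
        rw [Finset.mem_filter] at hi
        have h4 := (hζ i hi.1).1
        rw [hi.2] at h4
        have h5 := hX i hi.1
        push_cast
        have h6 : (i : ℝ) - (b - α) / ρ = (i * ρ - (b - α)) / ρ := by field_simp
        rw [h6, abs_div, abs_of_pos hρ, div_le_iff₀ hρ, abs_le]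
        constructor
        · nlinarith [h4.2, h5.2]
        · nlinarith [h4.1, h5.1])
    have h4 : ((((A.filter (fun i => ζ i = b)).image (fun i : ℕ => (i : ℤ))).card : ℕ) : ℝ) ≤ ((11 : ℕ) : ℝ) := by
      refine h3.trans (le_of_eq ?_)
      norm_num
    exact_mod_cast h4
  have h1 := Finset.card_le_mul_card_image_of_maps_to hmaps 11 hfib
  have h2 : Q.roots.toFinset.card ≤ n :=
    (Multiset.toFinset_card_le _).trans ((card_roots' Q).trans hdeg)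
  exact h1.trans (Nat.mul_le_mul_left _ h2)

/-- the constant in the bound for the Taylor coefficients -/
noncomputable def CR (n : ℕ) (R : ℝ) : ℝ := (n + 1) * 2 ^ n * R ^ n * (n + 1)

lemma CR_pos (n : ℕ) {R : ℝ} (hR : 1 ≤ R) : 1 ≤ CR n R := by
  unfold CR
  have h1 : (1 : ℝ) ≤ (n : ℝ) + 1 := by have : (0:ℝ) ≤ n := Nat.cast_nonneg n; linarith
  have h2 : (1 : ℝ) ≤ 2 ^ n := one_le_pow₀ (by norm_num)
  have h3 : (1 : ℝ) ≤ R ^ n := one_le_pow₀ hR
  have h4 : (1 : ℝ) ≤ ((n : ℝ) + 1) * 2 ^ n := one_le_mul_of_one_le_of_one_le h1 h2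
  exact one_le_mul_of_one_le_of_one_le (one_le_mul_of_one_le_of_one_le h4 h3) h1

lemma tc_uk_le {R Tk : ℝ} (hR : 1 ≤ R) (hTk : 0 ≤ Tk) (k : Fin (n + 1) → ℤ) (hk : ∀ j, |(k j : ℝ)| ≤ Tk)
    {t : ℝ} (ht : |t| ≤ R) (i : ℕ) : |tc (fun j => (uk k j : ℝ)) t i| ≤ CR n R * Tk := by
  have h1 := tc_le (T := ((n : ℝ) + 1) * Tk) hR (by positivity) (fun j => (uk k j : ℝ)) (fun j => by
    unfold uk
    push_cast
    rw [abs_mul, abs_of_nonneg (by positivity)]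
    have h2 : ((j : ℕ) : ℝ) + 1 ≤ (n : ℝ) + 1 := by
      have : ((j : ℕ) : ℝ) ≤ n := by exact_mod_cast (by omega : (j : ℕ) ≤ n)
      linarith
    exact mul_le_mul h2 (hk j) (abs_nonneg _) (by positivity)) ht i
  refine h1.trans (le_of_eq ?_)
  unfold CR
  ring

open Classical in
/-- **square mean of the Fourier coefficients** -/
theorem l2_sum (hn : 1 ≤ n) {R α ℓ Tk μ m : ℝ} {M L : ℕ} (hR : 1 ≤ R) (hℓ : 0 < ℓ) (hM : 0 < M)
    (hTk : 0 < Tk) (hm : 0 < m) (hμ : 0 < μ) (hμ1 : μ ≤ 1)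
    (hI : ∀ t, α - 1 ≤ t → t ≤ α + ℓ + 1 → |t| ≤ R)
    (S : Finset (Fin (n + 1) → ℤ)) (hS : ∀ k ∈ S, k ≠ 0 ∧ ∀ j, |(k j : ℝ)| ≤ Tk)
    {T ρ α0 : ℝ} (hT : T = CR n R * Tk) (hρ : ρ = ℓ / M) (hρ4 : ρ ≤ 1 / 4) (hα0 : α0 = 32 * T * ρ ^ 2)
    (hL : T ≤ α0 * 2 ^ L) (hvol : α0 * (α0 / (2 * ρ)) * T ^ (n - 1) < μ ^ (n + 1))
    (G : Finset ℕ) (hG : ∀ i ∈ G, i < M) (X : ℕ → ℝ)
    (hX : ∀ i ∈ G, X i ∈ Icc (α + i * ρ) (α + (i + 1) * ρ))
    (hGL : ∀ i ∈ G, ∀ l ≤ L, GLv n ρ T (α0 * 2 ^ l) μ (X i)) :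
    ∑ k ∈ S, ‖∑ i ∈ G, ∫ t in (α + i * ρ)..(α + (i + 1) * ρ), e (m * Pk k t)‖ ^ 2 ≤
      M * (L * (4 ^ (n + 1) / μ ^ (n + 1) * (2816 * n * ρ / (m * α0) + 11264 * n * ρ * T ^ n / m +
        (8 * M / (m * α0) ^ 2 + 16 * M * T ^ (n - 1) / (ρ * m ^ 2))))) := by
  have hMR : (0 : ℝ) < M := by exact_mod_cast hM
  have hρ0 : 0 < ρ := by rw [hρ]; positivity
  have hCR := CR_pos n hR
  have hT0 : 0 < T := by rw [hT]; positivity
  have hα00 : 0 < α0 := by rw [hα0]; positivity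
  have hn0 : (0 : ℝ) ≤ n := Nat.cast_nonneg n
  have hMρ : (M : ℝ) * ρ = ℓ := by rw [hρ]; field_simp
  -- the points
  have hXin : ∀ i ∈ G, α ≤ X i ∧ X i ≤ α + ℓ := by
    intro i hi
    have h1 := hX i hi
    have h2 : ((i : ℝ) + 1) ≤ M := by exact_mod_cast hG i hi
    have h3 : ((i : ℝ) + 1) * ρ ≤ M * ρ := by gcongr
    have h4 : 0 ≤ (i : ℝ) * ρ := by positivity
    constructor
    · linarith [h1.1]
    · linarith [h1.2]
  have hXR : ∀ i ∈ G, |X i| ≤ R := fun i hi => hI _ (by linarith [(hXin i hi).1]) (by linarith [(hXin i hi).2])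
  obtain ⟨c0, hc0⟩ : ∃ c0 : (Fin (n + 1) → ℤ) → ℕ → ℝ, c0 = fun k i => tc (fun j => (uk k j : ℝ)) (X i) 0 := ⟨_, rfl⟩
  obtain ⟨c1, hc1⟩ : ∃ c1 : (Fin (n + 1) → ℤ) → ℕ → ℝ, c1 = fun k i => tc (fun j => (uk k j : ℝ)) (X i) 1 := ⟨_, rfl⟩
  have hcell : ∀ k ∈ S, ∀ i ∈ G, Cell (Qk k) (X i) ρ T (c0 k i) (c1 k i) := by
    intro k hk i hi
    refine ⟨hρ0, hT0, ?_, ?_, fun t ht => ?_⟩
    · rw [hc0]; simp only; rw [tc_zero]; rfl
    · rw [hc1]; simp only; rw [tc_one]; rfl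
    · have h1 := tc_two (fun j => (uk k j : ℝ)) t
      have h2 : |t| ≤ R := hI t (by linarith [(hXin i hi).1, ht.1]) (by linarith [(hXin i hi).2, ht.2])
      have h3 := tc_uk_le hR hTk.le k (hS k hk).2 h2 2
      rw [← hT] at h3
      show |(derivative (derivative (pv fun j => (uk k j : ℝ)))).eval t| ≤ 2 * T
      rw [h1, abs_mul, abs_two]
      linarith
  have htc : ∀ k ∈ S, ∀ i ∈ G, ∀ r : ℕ, |tc (fun j => (uk k j : ℝ)) (X i) r| ≤ T := by
    intro k hk i hi r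
    rw [hT]
    exact tc_uk_le hR hTk.le k (hS k hk).2 (hXR i hi) r
  obtain ⟨av, hav⟩ : ∃ av : (Fin (n + 1) → ℤ) → ℕ → ℝ, av = fun k i => max |c0 k i| (2 * ρ * |c1 k i|) := ⟨_, rfl⟩
  have havlow : ∀ k ∈ S, ∀ i ∈ G, α0 < av k i := by
    intro k hk i hi
    rw [hav, hc0, hc1]
    have h1 := hGL i hi 0 (Nat.zero_le _)
    rw [pow_zero, mul_one] at h1
    exact none_level hn hρ0 hT0 hα00 hμ hvol h1 (uk k) (uk_ne (hS k hk).1) (htc k hk i hi)
  have hc0T : ∀ k ∈ S, ∀ i ∈ G, |c0 k i| ≤ T := by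
    intro k hk i hi; rw [hc0]; exact htc k hk i hi 0
  have hc1T : ∀ k ∈ S, ∀ i ∈ G, |c1 k i| ≤ T := by
    intro k hk i hi; rw [hc1]; exact htc k hk i hi 1
  have havup : ∀ k ∈ S, ∀ i ∈ G, av k i ≤ T := by
    intro k hk i hi
    rw [hav]
    refine max_le (hc0T k hk i hi) ?_
    have h1 := hc1T k hk i hi
    have h2 : 0 ≤ |c1 k i| := abs_nonneg _
    nlinarith
  -- the critical cells
  obtain ⟨Ak, hAk⟩ : ∃ Ak : (Fin (n + 1) → ℤ) → Finset ℕ, Ak = fun k => G.filter (fun i => |c0 k i| ≤ 2 * ρ * |c1 k i|) :=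
    ⟨_, rfl⟩
  have hAmem : ∀ k i, i ∈ Ak k ↔ i ∈ G ∧ |c0 k i| ≤ 2 * ρ * |c1 k i| := by
    intro k i; rw [hAk]; exact Finset.mem_filter
  have hcritc1 : ∀ k ∈ S, ∀ i ∈ Ak k, av k i = 2 * ρ * |c1 k i| ∧ 16 * T * ρ ≤ |c1 k i| := by
    intro k hk i hi
    obtain ⟨h1, h2⟩ := (hAmem k i).1 hi
    have h3 : av k i = 2 * ρ * |c1 k i| := by rw [hav]; exact max_eq_right h2
    refine ⟨h3, ?_⟩
    have h4 := havlow k hk i h1
    rw [h3, hα0] at h4
    have h5 : 2 * ρ * (16 * T * ρ) < 2 * ρ * |c1 k i| := by nlinarith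
    exact (lt_of_mul_lt_mul_left h5 (by positivity)).le
  have hncrit : ∀ k ∈ S, ∀ i ∈ G \ Ak k, av k i = |c0 k i| ∧ 32 * T * ρ ^ 2 ≤ |c0 k i| ∧ 2 * ρ * |c1 k i| ≤ |c0 k i| := by
    intro k hk i hi
    rw [Finset.mem_sdiff, hAmem] at hi
    have h2 : 2 * ρ * |c1 k i| < |c0 k i| := by
      by_contra hcon
      exact hi.2 ⟨hi.1, not_lt.1 hcon⟩
    have h3 : av k i = |c0 k i| := by rw [hav]; exact max_eq_left h2.le
    refine ⟨h3, ?_, h2.le⟩
    have h4 := havlow k hk i hi.1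
    rw [h3, hα0] at h4
    exact h4.le
  have hAcard : ∀ k ∈ S, ((Ak k).card : ℝ) ≤ 11 * n := by
    intro k hk
    have h1 := crit_card (Qk_ne (hS k hk).1) (Qk_deg k) hρ0 (Ak k) X (fun i hi => hX i ((hAmem k i).1 hi).1)
      (fun i hi => (hcell k hk i ((hAmem k i).1 hi).1).root (hcritc1 k hk i hi).2 ((hAmem k i).1 hi).2)
    exact_mod_cast h1
  have hGcard : (G.card : ℝ) ≤ M := by
    have h1 : G ⊆ Finset.range M := fun i hi => Finset.mem_range.2 (hG i hi)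
    have h2 := Finset.card_le_card h1
    rw [Finset.card_range] at h2
    exact_mod_cast h2
  -- the integrals
  obtain ⟨z, hz⟩ : ∃ z : (Fin (n + 1) → ℤ) → ℕ → ℂ, z = (fun (k : Fin (n + 1) → ℤ) (i : ℕ) =>
    ∫ t in (α + (i : ℝ) * ρ)..(α + ((i : ℝ) + 1) * ρ), e (m * Pk k t)) := ⟨_, rfl⟩
  obtain ⟨F, hF⟩ : ∃ F : (Fin (n + 1) → ℤ) → ℕ → ℝ, F = (fun k i => if i ∈ Ak k then 1408 * (n : ℝ) / (m * |c1 k i|)
    else 8 * (M : ℝ) / (m * |c0 k i|) ^ 2) := ⟨_, rfl⟩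
  have hzA : ∀ k ∈ S, ∀ i ∈ Ak k, ‖z k i‖ ^ 2 ≤ 64 / (m * |c1 k i|) := by
    intro k hk i hi
    have hiG := ((hAmem k i).1 hi).1
    have h1 := hX i hiG
    rw [hz]
    refine (hcell k hk i hiG).intA (hcritc1 k hk i hi).2 (Pk_deriv k) hm ?_ ?_ ?_
    · linarith [h1.2]
    · linarith [h1.1, h1.2]
    · linarith [h1.1]
  have hzB : ∀ k ∈ S, ∀ i ∈ G \ Ak k, ‖z k i‖ ^ 2 ≤ 4 / (m * |c0 k i|) ^ 2 := by
    intro k hk i hi
    have hiG := (Finset.mem_sdiff.1 hi).1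
    have h1 := hX i hiG
    obtain ⟨_, h2, h3⟩ := hncrit k hk i hi
    rw [hz]
    refine (hcell k hk i hiG).intB h2 h3 (Pk_deriv k) hm ?_ ?_ ?_ ?_
    · linarith [h1.2]
    · linarith [h1.1, h1.2]
    · linarith [h1.1]
    · linarith
  have hper : ∀ k ∈ S, ‖∑ i ∈ G, z k i‖ ^ 2 ≤ ∑ i ∈ G, F k i := by
    intro k hk
    have hsub : Ak k ⊆ G := fun i hi => ((hAmem k i).1 hi).1
    refine (split_sq G (z k) (Ak k) hsub (hAcard k hk) hGcard).trans ?_
    rw [← Finset.sum_sdiff hsub, add_comm, Finset.mul_sum, Finset.mul_sum]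
    refine add_le_add (Finset.sum_le_sum fun i hi => ?_) (Finset.sum_le_sum fun i hi => ?_)
    · rw [hF]
      simp only
      rw [if_neg (Finset.mem_sdiff.1 hi).2]
      have h1 := mul_le_mul_of_nonneg_left (hzB k hk i hi) (by positivity : (0 : ℝ) ≤ 2 * M)
      refine h1.trans (le_of_eq ?_)
      ring
    · rw [hF]
      simp only
      rw [if_pos hi]
      have h1 := mul_le_mul_of_nonneg_left (hzA k hk i hi) (by positivity : (0 : ℝ) ≤ 2 * (11 * n))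
      refine h1.trans (le_of_eq ?_)
      ring
  have hstep : ∑ k ∈ S, ‖∑ i ∈ G, ∫ t in (α + i * ρ)..(α + (i + 1) * ρ), e (m * Pk k t)‖ ^ 2 ≤
      ∑ i ∈ G, ∑ k ∈ S, F k i := by
    rw [Finset.sum_comm]
    refine Finset.sum_le_sum fun k hk => ?_
    have h1 := hper k hk
    rw [hz] at h1
    exact h1
  refine hstep.trans ?_
  -- one cell
  obtain ⟨Bd, hBd⟩ : ∃ Bd : ℝ, Bd = 2816 * n * ρ / (m * α0) + 11264 * n * ρ * T ^ n / m +
        (8 * M / (m * α0) ^ 2 + 16 * M * T ^ (n - 1) / (ρ * m ^ 2)) := ⟨_, rfl⟩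
  obtain ⟨V, hV⟩ : ∃ V : ℝ, V = 4 ^ (n + 1) / μ ^ (n + 1) := ⟨_, rfl⟩
  have hV0 : 0 ≤ V := by rw [hV]; positivity
  have hBd0 : 0 ≤ Bd := by rw [hBd]; positivity
  rw [← hBd, ← hV]
  have hone : ∀ i ∈ G, ∑ k ∈ S, F k i ≤ L * (V * Bd) := by
    intro i hi
    have hdy := dyadic S (fun k => av k i) (fun k => F k i) hα00 L
      (fun l => V * (1 + (α0 * 2 ^ (l + 1)) * ((α0 * 2 ^ (l + 1)) / (2 * ρ)) * T ^ (n - 1)))
      (fun l => (if α0 * 2 ^ l < 2 * ρ * T then 2816 * n * ρ / (m * (α0 * 2 ^ l)) else 0) +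
        8 * M / (m * (α0 * 2 ^ l)) ^ 2) (fun k hk => havlow k hk i hi)
      (fun k hk => (havup k hk i hi).trans hL) (fun l => by
        have h1 : 0 ≤ 8 * (M : ℝ) / (m * (α0 * 2 ^ l)) ^ 2 := by positivity
        split_ifs
        · positivity
        · linarith) (fun l hl => by
        rw [hV]
        have h1 : ((S.filter (fun k => av k i ≤ α0 * 2 ^ (l + 1))).card) =
            ((S.filter (fun k => av k i ≤ α0 * 2 ^ (l + 1))).image uk).card :=
          (Finset.card_image_of_injective _ uk_inj).symm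
        rw [h1]
        refine count_level hn hρ0 hT0 (by positivity) hμ hμ1 (hGL i hi (l + 1) hl) _ fun u hu => ?_
        rw [Finset.mem_image] at hu
        obtain ⟨k, hk, rfl⟩ := hu
        rw [Finset.mem_filter] at hk
        have h2 := hk.2
        rw [hav, hc0, hc1] at h2
        exact ⟨htc k hk.1 i hi, (le_max_left _ _).trans h2, (le_max_right _ _).trans h2⟩)
      (fun k hk l hl h1 h2 => by
        have hαl : 0 < α0 * 2 ^ l := by positivity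
        rw [hF]
        simp only
        by_cases hA : i ∈ Ak k
        · rw [if_pos hA]
          obtain ⟨h3, h4⟩ := hcritc1 k hk i hA
          rw [h3] at h1
          have h5 : α0 * 2 ^ l < 2 * ρ * T := lt_of_lt_of_le h1 (by
            have := hc1T k hk i hi
            gcongr)
          rw [if_pos h5]
          have hc1pos : 0 < |c1 k i| := lt_of_lt_of_le (by positivity) h4
          have h6 : 1408 * n / (m * |c1 k i|) ≤ 2816 * n * ρ / (m * (α0 * 2 ^ l)) := by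
            rw [div_le_div_iff₀ (by positivity) (by positivity)]
            have h7 : 1408 * (n : ℝ) * m * (α0 * 2 ^ l) ≤ 1408 * (n : ℝ) * m * (2 * ρ * |c1 k i|) := by gcongr
            nlinarith
          have h8 : 0 ≤ 8 * (M : ℝ) / (m * (α0 * 2 ^ l)) ^ 2 := by positivity
          linarith
        · rw [if_neg hA]
          obtain ⟨h3, _, _⟩ := hncrit k hk i (Finset.mem_sdiff.2 ⟨hi, hA⟩)
          rw [h3] at h1
          have h6 : 8 * (M : ℝ) / (m * |c0 k i|) ^ 2 ≤ 8 * M / (m * (α0 * 2 ^ l)) ^ 2 := by gcongr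
          have h7 : 0 ≤ (if α0 * 2 ^ l < 2 * ρ * T then 2816 * n * ρ / (m * (α0 * 2 ^ l)) else (0 : ℝ)) := by
            split_ifs
            · positivity
            · exact le_rfl
          linarith)
    refine hdy.trans ?_
    have hterm : ∀ l ∈ Finset.range L,
        V * (1 + (α0 * 2 ^ (l + 1)) * ((α0 * 2 ^ (l + 1)) / (2 * ρ)) * T ^ (n - 1)) *
        ((if α0 * 2 ^ l < 2 * ρ * T then 2816 * n * ρ / (m * (α0 * 2 ^ l)) else 0) +
        8 * M / (m * (α0 * 2 ^ l)) ^ 2) ≤ V * Bd := by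
      intro l _
      rw [mul_assoc]
      refine mul_le_mul_of_nonneg_left ?_ hV0
      obtain ⟨a, ha⟩ : ∃ a : ℝ, a = α0 * 2 ^ l := ⟨_, rfl⟩
      have ha0 : 0 < a := by rw [ha]; positivity
      have haα : α0 ≤ a := by
        rw [ha]
        exact le_mul_of_one_le_right hα00.le (one_le_pow₀ (by norm_num))
      have ha2 : α0 * 2 ^ (l + 1) = 2 * a := by rw [ha]; ring
      rw [ha2, ← ha]
      have e1 : 1 + 2 * a * (2 * a / (2 * ρ)) * T ^ (n - 1) = 1 + 2 * a ^ 2 * T ^ (n - 1) / ρ := by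
        field_simp
      rw [e1]
      have b1 : (if a < 2 * ρ * T then 2816 * n * ρ / (m * a) else (0 : ℝ)) ≤ 2816 * n * ρ / (m * α0) := by
        split_ifs
        · gcongr
        · positivity
      have b2 : 8 * (M : ℝ) / (m * a) ^ 2 ≤ 8 * M / (m * α0) ^ 2 := by gcongr
      have b3 : 2 * a ^ 2 * T ^ (n - 1) / ρ * (if a < 2 * ρ * T then 2816 * n * ρ / (m * a) else (0 : ℝ)) ≤
          11264 * n * ρ * T ^ n / m := by
        split_ifs with hlt
        · have e2 : 2 * a ^ 2 * T ^ (n - 1) / ρ * (2816 * n * ρ / (m * a)) = 5632 * n * a * T ^ (n - 1) / m := by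
            field_simp
            ring
          rw [e2]
          have e3 : T ^ n = T * T ^ (n - 1) := by
            rw [← pow_succ']
            congr 1
            omega
          rw [e3]
          have e4 : 11264 * n * ρ * (T * T ^ (n - 1)) / m = 5632 * n * (2 * ρ * T) * T ^ (n - 1) / m := by ring
          rw [e4]
          gcongr
        · rw [mul_zero]
          positivity
      have b4 : 2 * a ^ 2 * T ^ (n - 1) / ρ * (8 * (M : ℝ) / (m * a) ^ 2) = 16 * M * T ^ (n - 1) / (ρ * m ^ 2) := by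
        field_simp
        ring
      rw [hBd]
      calc (1 + 2 * a ^ 2 * T ^ (n - 1) / ρ) * ((if a < 2 * ρ * T then 2816 * n * ρ / (m * a) else 0) +
          8 * M / (m * a) ^ 2)
          = (if a < 2 * ρ * T then 2816 * n * ρ / (m * a) else 0) +
            2 * a ^ 2 * T ^ (n - 1) / ρ * (if a < 2 * ρ * T then 2816 * n * ρ / (m * a) else (0 : ℝ)) +
            (8 * M / (m * a) ^ 2 + 2 * a ^ 2 * T ^ (n - 1) / ρ * (8 * (M : ℝ) / (m * a) ^ 2)) := by ring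
        _ ≤ _ := by
          rw [b4]
          exact add_le_add (add_le_add b1 b3) (add_le_add b2 le_rfl)
    refine (Finset.sum_le_sum hterm).trans ?_
    rw [Finset.sum_const, Finset.card_range, nsmul_eq_mul]
  refine (Finset.sum_le_sum hone).trans ?_
  rw [Finset.sum_const, nsmul_eq_mul]
  exact mul_le_mul_of_nonneg_right hGcard (by positivity)

end Pool.Agent.W5h30.PW
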