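import Pool.Agent.W5h30.PW.Ivl

/-!
# The joint law of the digits of the powers of a random algebraic number (helper30)
-/

set_option autoImplicit false
set_option linter.unusedVariables false

namespace Pool.Agent.W5h30.PW

open Set MeasureTheory Filter
open Pool.Agent.W5h30.LL Pool.Agent.W5h30.SM
open Pool.Agent.Y933.KG
open Pool.Agent.Y933.KD (e)

variable {n : ℕ} {a b : ℝ}

/-- the measure of the bad points -/
theorem bad_measure (n : ℕ) (hn : 1 ≤ n) (a b : ℝ) : ∃ C : ℝ, 1 ≤ C ∧ ∃ C' : ℝ, 0 ≤ C' ∧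
    ∀ ρ T α0 : ℝ, 0 < ρ → ρ ≤ 1 / 2 → 0 < T → 0 < α0 → ∀ L : ℕ, ∀ ε : ℝ, 0 < ε → ε ≤ 1 →
      volume {x | x ∈ Icc a b ∧ ¬ ∀ l ≤ L, GLv n ρ T (α0 * 2 ^ l) (ε / C) x} ≤
        ENNReal.ofReal (C' * (L + 1) * ε ^ (1 / (((n + 1) * n : ℕ) : ℝ))) := by
  obtain ⟨C, hC, h⟩ := gl_measure n hn
  refine ⟨C, hC, ((Finset.Icc ⌊a⌋ ⌊b⌋).card : ℝ) * C, by positivity, ?_⟩
  intro ρ T α0 hρ hρ1 hT hα L ε hε hε1
  have hsub : {x | x ∈ Icc a b ∧ ¬ ∀ l ≤ L, GLv n ρ T (α0 * 2 ^ l) (ε / C) x} ⊆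
      ⋃ l ∈ Finset.range (L + 1), ⋃ z ∈ Finset.Icc ⌊a⌋ ⌊b⌋,
        {x ∈ Ico (z : ℝ) (z + 1) | ¬ GLv n ρ T (α0 * 2 ^ l) (ε / C) x} := by
    rintro x ⟨hx, hnot⟩
    push Not at hnot
    obtain ⟨l, hl, hbad⟩ := hnot
    rw [mem_iUnion₂]
    refine ⟨l, Finset.mem_range.2 (by omega), ?_⟩
    rw [mem_iUnion₂]
    refine ⟨⌊x⌋, ?_, ⟨Int.floor_le x, Int.lt_floor_add_one x⟩, hbad⟩
    rw [Finset.mem_Icc]
    exact ⟨Int.floor_le_floor hx.1, Int.floor_le_floor hx.2⟩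
  refine (measure_mono hsub).trans ((measure_biUnion_finset_le _ _).trans ?_)
  have h1 : ∀ l ∈ Finset.range (L + 1), volume (⋃ z ∈ Finset.Icc ⌊a⌋ ⌊b⌋,
        {x ∈ Ico (z : ℝ) (z + 1) | ¬ GLv n ρ T (α0 * 2 ^ l) (ε / C) x}) ≤
        ENNReal.ofReal (((Finset.Icc ⌊a⌋ ⌊b⌋).card : ℝ) * (C * ε ^ (1 / (((n + 1) * n : ℕ) : ℝ)))) := by
    intro l _
    refine (measure_biUnion_finset_le _ _).trans ?_
    refine (Finset.sum_le_sum fun z _ => h ρ T (α0 * 2 ^ l) hρ hρ1 hT (by positivity) ε hε hε1 z).trans ?_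
    have hcard : (((Finset.Icc ⌊a⌋ ⌊b⌋).card : ℕ) : ENNReal) = ENNReal.ofReal ((Finset.Icc ⌊a⌋ ⌊b⌋).card : ℝ) :=
      (ENNReal.ofReal_natCast _).symm
    rw [Finset.sum_const, nsmul_eq_mul, hcard, ← ENNReal.ofReal_mul (by positivity)]
  refine (Finset.sum_le_sum h1).trans ?_
  rw [Finset.sum_const, Finset.card_range, nsmul_eq_mul]
  have h2 : (((L + 1 : ℕ) : ENNReal)) = ENNReal.ofReal (((L + 1 : ℕ) : ℝ)) := (ENNReal.ofReal_natCast _).symm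
  rw [h2, ← ENNReal.ofReal_mul (by positivity)]
  refine ENNReal.ofReal_le_ofReal (le_of_eq ?_)
  push_cast
  ring

/-- the choice of the number of cells -/
lemma numM {x3 Z y : ℝ} (hZ : 0 < Z) (hy : 0 < y) {ℓ : ℝ} (hℓ : 0 < ℓ) (h1 : 1 ≤ ℓ ^ 3 * (y / Z)) :
    ∃ M : ℕ, 0 < M ∧ y * (ℓ / M) ^ 3 ≤ Z ∧ Z / 8 ≤ y * (ℓ / M) ^ 3 := by
  obtain ⟨c, hc⟩ : ∃ c : ℝ, c = (y / Z) ^ (((3 : ℕ) : ℝ)⁻¹) := ⟨_, rfl⟩
  have hyZ : 0 < y / Z := by positivity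
  have hc0 : 0 < c := by rw [hc]; positivity
  have hc3 : c ^ 3 = y / Z := by
    rw [hc]
    exact Real.rpow_inv_natCast_pow hyZ.le (by norm_num)
  obtain ⟨x, hx⟩ : ∃ x : ℝ, x = ℓ * c := ⟨_, rfl⟩
  have hx3 : x ^ 3 * Z = y * ℓ ^ 3 := by
    rw [hx, mul_pow, hc3]
    field_simp
  have hx1 : 1 ≤ x := by
    have h2 : 1 ≤ x ^ 3 := by
      rw [hx, mul_pow, hc3]
      exact h1
    by_contra hcon
    push Not at hcon
    have hx0 : 0 ≤ x := by rw [hx]; positivity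
    have : x ^ 3 < 1 := pow_lt_one₀ hx0 hcon (by norm_num)
    linarith
  refine ⟨⌈x⌉₊, Nat.ceil_pos.2 (by linarith), ?_, ?_⟩
  · have hM : x ≤ (⌈x⌉₊ : ℝ) := Nat.le_ceil x
    have hM0 : (0 : ℝ) < (⌈x⌉₊ : ℝ) := by linarith
    rw [div_pow, mul_div_assoc', div_le_iff₀ (by positivity), ← hx3, mul_comm]
    exact mul_le_mul_of_nonneg_left (pow_le_pow_left₀ (by linarith) hM 3) hZ.le
  · have hM : (⌈x⌉₊ : ℝ) ≤ 2 * x := by
      have := (Nat.ceil_lt_add_one (by linarith : (0 : ℝ) ≤ x)).le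
      linarith
    have hM0 : (0 : ℝ) < (⌈x⌉₊ : ℝ) := by
      have := Nat.le_ceil x
      linarith
    rw [div_pow, mul_div_assoc', le_div_iff₀ (by positivity), ← hx3]
    have h2 : (⌈x⌉₊ : ℝ) ^ 3 ≤ (2 * x) ^ 3 := pow_le_pow_left₀ hM0.le hM 3
    nlinarith

/-- the size of the square mean -/
lemma numW (hn : 1 ≤ n) {ℓ ρ m T Z V α0 : ℝ} {M L : ℕ} (hℓ : 0 < ℓ) (hρ0 : 0 < ρ) (hρ1 : ρ ≤ 1) (hm : 0 < m)
    (hT : 0 < T) (hZ : 1 ≤ Z) (hV : 0 ≤ V) (hMρ : (M : ℝ) * ρ = ℓ) (hα0 : α0 = 32 * T * ρ ^ 2)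
    (h1 : Z / 8 ≤ m * T * ρ ^ 3) (h2 : T ^ n * Z ≤ m) :
    (M : ℝ) * (L * (V * (2816 * n * ρ / (m * α0) + 11264 * n * ρ * T ^ n / m +
        (8 * M / (m * α0) ^ 2 + 16 * M * T ^ (n - 1) / (ρ * m ^ 2))))) ≤
      L * V * (12100 * n * (ℓ + ℓ ^ 2)) / Z := by
  have hZ0 : 0 < Z := by linarith
  have hMR : (M : ℝ) = ℓ / ρ := by rw [← hMρ]; field_simp
  have hn1 : (1 : ℝ) ≤ n := by exact_mod_cast hn
  obtain ⟨y, hy⟩ : ∃ y : ℝ, y = m * T * ρ ^ 3 := ⟨_, rfl⟩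
  have hy0 : 0 < y := by rw [hy]; positivity
  have hyi : 1 / y ≤ 8 / Z := by
    rw [div_le_div_iff₀ hy0 hZ0]
    rw [← hy] at h1
    linarith
  have hTm : T ^ n / m ≤ 1 / Z := by
    rw [div_le_div_iff₀ hm hZ0]
    linarith
  have hTn : T ^ n = T * T ^ (n - 1) := by
    rw [← pow_succ']
    congr 1
    omega
  have a1 : (M : ℝ) * (2816 * n * ρ / (m * α0)) ≤ 704 * n * ℓ / Z := by
    have e1 : (M : ℝ) * (2816 * n * ρ / (m * α0)) = 88 * n * ℓ * ρ * (1 / y) := by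
      rw [hMR, hα0, hy]
      field_simp
      ring
    rw [e1]
    calc 88 * n * ℓ * ρ * (1 / y) ≤ 88 * n * ℓ * 1 * (8 / Z) := by gcongr
      _ = 704 * n * ℓ / Z := by ring
  have a2 : (M : ℝ) * (11264 * n * ρ * T ^ n / m) ≤ 11264 * n * ℓ / Z := by
    have e1 : (M : ℝ) * (11264 * n * ρ * T ^ n / m) = 11264 * n * ℓ * (T ^ n / m) := by
      rw [hMR]
      field_simp
    rw [e1]
    calc 11264 * n * ℓ * (T ^ n / m) ≤ 11264 * n * ℓ * (1 / Z) := by gcongr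
      _ = _ := by ring
  have hZZ : 1 / Z ≤ 1 := by rw [div_le_one hZ0]; exact hZ
  have a3 : (M : ℝ) * (8 * M / (m * α0) ^ 2) ≤ ℓ ^ 2 / Z := by
    have e1 : (M : ℝ) * (8 * M / (m * α0) ^ 2) = ℓ ^ 2 / 128 * (1 / y) * (1 / y) := by
      rw [hMR, hα0, hy]
      field_simp
      ring
    rw [e1]
    calc ℓ ^ 2 / 128 * (1 / y) * (1 / y) ≤ ℓ ^ 2 / 128 * (8 / Z) * (8 / Z) := by gcongr
      _ = ℓ ^ 2 / 2 * (1 / Z) * (1 / Z) := by ring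
      _ ≤ ℓ ^ 2 / 1 * (1 / Z) * 1 := by
          gcongr
          norm_num
      _ = ℓ ^ 2 / Z := by ring
  have a4 : (M : ℝ) * (16 * M * T ^ (n - 1) / (ρ * m ^ 2)) ≤ 128 * ℓ ^ 2 / Z := by
    have e1 : (M : ℝ) * (16 * M * T ^ (n - 1) / (ρ * m ^ 2)) = 16 * ℓ ^ 2 * (T ^ n / m) * (1 / y) := by
      rw [hMR, hy, hTn]
      field_simp
    rw [e1]
    calc 16 * ℓ ^ 2 * (T ^ n / m) * (1 / y) ≤ 16 * ℓ ^ 2 * (1 / Z) * (8 / Z) := by gcongr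
      _ = 128 * ℓ ^ 2 * (1 / Z) * (1 / Z) := by ring
      _ ≤ 128 * ℓ ^ 2 * (1 / Z) * 1 := by gcongr
      _ = _ := by ring
  have hL0 : (0 : ℝ) ≤ L := Nat.cast_nonneg L
  have hsum : (M : ℝ) * (2816 * n * ρ / (m * α0) + 11264 * n * ρ * T ^ n / m +
        (8 * M / (m * α0) ^ 2 + 16 * M * T ^ (n - 1) / (ρ * m ^ 2))) ≤ 12100 * n * (ℓ + ℓ ^ 2) / Z := by
    have h3 : 704 * n * ℓ / Z + 11264 * n * ℓ / Z + (ℓ ^ 2 / Z + 128 * ℓ ^ 2 / Z) ≤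
        12100 * n * (ℓ + ℓ ^ 2) / Z := by
      have h4 : 704 * n * ℓ / Z + 11264 * n * ℓ / Z + (ℓ ^ 2 / Z + 128 * ℓ ^ 2 / Z) =
          (11968 * n * ℓ + 129 * ℓ ^ 2) / Z := by ring
      rw [h4]
      apply div_le_div_of_nonneg_right _ hZ0.le
      have h5 : 0 ≤ n * ℓ := by positivity
      have h6 : ℓ ^ 2 ≤ n * ℓ ^ 2 := le_mul_of_one_le_left (by positivity) hn1
      have h7 : 0 ≤ (n : ℝ) * ℓ ^ 2 := by positivity
      nlinarith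
    refine le_trans ?_ h3
    rw [mul_add, mul_add, mul_add]
    exact add_le_add (add_le_add a1 a2) (add_le_add a3 a4)
  calc (M : ℝ) * (L * (V * (2816 * n * ρ / (m * α0) + 11264 * n * ρ * T ^ n / m +
        (8 * M / (m * α0) ^ 2 + 16 * M * T ^ (n - 1) / (ρ * m ^ 2)))))
      = L * V * (M * (2816 * n * ρ / (m * α0) + 11264 * n * ρ * T ^ n / m +
        (8 * M / (m * α0) ^ 2 + 16 * M * T ^ (n - 1) / (ρ * m ^ 2)))) := by ring
    _ ≤ L * V * (12100 * n * (ℓ + ℓ ^ 2) / Z) := mul_le_mul_of_nonneg_left hsum (by positivity)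
    _ = _ := by ring

/-- powers of two against powers of `H` -/
lemma ev_two (A τ : ℝ) (hτ : 0 < τ) : ∀ᶠ H : ℕ in atTop, (H : ℝ) ^ A ≤ 2 ^ ((H : ℝ) ^ τ) := by
  have h2 := isLittleO_log_rpow_atTop (r := τ) hτ
  obtain ⟨c, hc⟩ : ∃ c : ℝ, c = Real.log 2 / (|A| + 1) := ⟨_, rfl⟩
  have hlog2 : 0 < Real.log 2 := Real.log_pos (by norm_num)
  have hc0 : 0 < c := by rw [hc]; positivity
  have h3 := h2.bound hc0
  have h4 := (tendsto_natCast_atTop_atTop (R := ℝ)).eventually h3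
  filter_upwards [h4, eventually_ge_atTop 1] with H h5 h6
  have hH1 : (1 : ℝ) ≤ H := by exact_mod_cast h6
  have hHpos : (0 : ℝ) < H := by linarith
  rw [Real.norm_eq_abs, Real.norm_eq_abs, abs_of_nonneg (Real.log_natCast_nonneg H),
    abs_of_nonneg (by positivity)] at h5
  rw [← Real.exp_log hHpos, ← Real.exp_mul, Real.exp_log hHpos, Real.rpow_def_of_pos (by norm_num : (0 : ℝ) < 2),
    Real.exp_le_exp]
  have hl := Real.log_natCast_nonneg H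
  have h7 : Real.log H * A ≤ Real.log H * (|A| + 1) :=
    mul_le_mul_of_nonneg_left (by linarith [le_abs_self A]) hl
  have h8 : Real.log H * (|A| + 1) ≤ c * (H : ℝ) ^ τ * (|A| + 1) :=
    mul_le_mul_of_nonneg_right h5 (by positivity)
  have h9 : c * (H : ℝ) ^ τ * (|A| + 1) = Real.log 2 * (H : ℝ) ^ τ := by
    rw [hc]
    field_simp
  linarith

/-- the law on one interval, with the choice of the cells -/
theorem one_interval (hn : 1 ≤ n) {α ℓ T R C3 C4 : ℝ} {p z J : ℕ} (hC3 : 1 ≤ C3) (hC4 : 0 ≤ C4)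
    (hbm : ∀ ρ T α0 : ℝ, 0 < ρ → ρ ≤ 1 / 2 → 0 < T → 0 < α0 → ∀ L : ℕ, ∀ ε : ℝ, 0 < ε → ε ≤ 1 →
      volume {x | x ∈ Icc a b ∧ ¬ ∀ l ≤ L, GLv n ρ T (α0 * 2 ^ l) (ε / C3) x} ≤
        ENNReal.ofReal (C4 * (L + 1) * ε ^ (1 / (((n + 1) * n : ℕ) : ℝ))))
    (hp : p = 6 * ((n + 1) * n)) (hz : z = p * (n + 1) + 8)
    (haα : a ≤ α) (hβb : α + ℓ ≤ b) (hℓ : 0 < ℓ) (hR : R = |a| + |b| + 1) (hT1 : 64 ≤ T)
    (hJ1 : T ≤ J) (hJ2 : (J : ℝ) ≤ 2 * T) {m K : ℕ} (hK : 1 ≤ K)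
    (hC4T : 3 * C4 ≤ T) (hℓT : 4 / T ^ 3 ≤ ℓ)
    (hW : 2 * 4 ^ (n + 1) * C3 ^ (n + 1) * (12100 * n * (ℓ + ℓ ^ 2)) ≤ T)
    (hW2 : 4 / T ^ 2 ≤ ℓ)
    (h1 : T ^ z ≤ ℓ ^ 3 * m) (h2 : 64 * T ^ z ≤ m)
    (h3 : (m : ℝ) * (8 * CR n R * K * T ^ 2) ≤ 4 * 2 ^ J)
    (h4 : 512 * (8 * CR n R) ^ n * C3 ^ (n + 1) * (K : ℝ) ^ n * T ^ (2 * n + z + p * (n + 1)) < m)
    (E : Finset (Fin (n + 1) → ℕ)) (hE : ∀ w ∈ E, ∀ j, w j < K) :
    |volume.real (PVn a b n m K E ∩ Icc α (α + ℓ)) - (E.card : ℝ) / (K : ℝ) ^ (n + 1) * ℓ| ≤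
      ((9 * n + 11) / T) * ℓ := by
  classical
  have hT0 : 0 < T := by linarith
  have hT1' : 1 ≤ T := by linarith
  have hJR : (0 : ℝ) < J := by linarith
  have hJpos : 0 < J := by exact_mod_cast hJR
  have hR1 : 1 ≤ R := by rw [hR]; linarith [abs_nonneg a, abs_nonneg b]
  have hCR := CR_pos n hR1
  have hKR : (1 : ℝ) ≤ K := by exact_mod_cast hK
  have hn1 : (1 : ℝ) ≤ n := by exact_mod_cast hn
  have hZ : 0 < T ^ z := by positivity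
  have hZ1 : 1 ≤ T ^ z := one_le_pow₀ hT1'
  have hmR : (0 : ℝ) < m := by linarith
  obtain ⟨Tp, hTp⟩ : ∃ Tp : ℝ, Tp = CR n R * (8 * K * T ^ 2) := ⟨_, rfl⟩
  have hTp1 : 1 ≤ Tp := by
    rw [hTp]
    have h5 : (1 : ℝ) ≤ T ^ 2 := one_le_pow₀ hT1'
    have h6 : (1 : ℝ) ≤ 8 * K * T ^ 2 := by nlinarith
    exact one_le_mul_of_one_le_of_one_le hCR h6
  have hTp0 : 0 < Tp := by linarith
  have hmTp : (m : ℝ) ≤ m * Tp := le_mul_of_one_le_right hmR.le hTp1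
  -- the cells
  obtain ⟨M, hM, hM1, hM2⟩ := numM (x3 := 0) hZ (mul_pos hmR hTp0) hℓ (by
    rw [mul_div_assoc', one_le_div hZ]
    refine h1.trans ?_
    have : 0 < ℓ ^ 3 := by positivity
    nlinarith)
  have hMR : (0 : ℝ) < M := by exact_mod_cast hM
  obtain ⟨ρ, hρ⟩ : ∃ ρ : ℝ, ρ = ℓ / M := ⟨_, rfl⟩
  rw [← hρ] at hM1 hM2
  have hρ0 : 0 < ρ := by rw [hρ]; positivity
  have hMρ : (M : ℝ) * ρ = ℓ := by rw [hρ]; field_simp
  have hρ4 : ρ ≤ 1 / 4 := by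
    by_contra hcon
    push Not at hcon
    have h5 : (1 / 4 : ℝ) ^ 3 < ρ ^ 3 := pow_lt_pow_left₀ hcon (by norm_num) (by norm_num)
    have h6 : 64 * T ^ z ≤ m * Tp := h2.trans hmTp
    nlinarith
  obtain ⟨α0, hα0⟩ : ∃ α0 : ℝ, α0 = 32 * Tp * ρ ^ 2 := ⟨_, rfl⟩
  have hα00 : 0 < α0 := by rw [hα0]; positivity
  obtain ⟨ε, hε⟩ : ∃ ε : ℝ, ε = (T ^ p)⁻¹ := ⟨_, rfl⟩
  have hε0 : 0 < ε := by rw [hε]; positivity
  have hε1 : ε ≤ 1 := by rw [hε]; exact inv_le_one_of_one_le₀ (one_le_pow₀ hT1')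
  have hC30 : 0 < C3 := by linarith
  obtain ⟨μ, hμ⟩ : ∃ μ : ℝ, μ = ε / C3 := ⟨_, rfl⟩
  have hμ0 : 0 < μ := by rw [hμ]; positivity
  have hμ1 : μ ≤ 1 := by rw [hμ, div_le_one hC30]; linarith
  -- the bad set
  obtain ⟨Good, hGood⟩ : ∃ Good : ℝ → Prop, Good = fun x => ∀ l ≤ J, GLv n ρ Tp (α0 * 2 ^ l) μ x := ⟨_, rfl⟩
  obtain ⟨Bad, hBad⟩ : ∃ Bad : Set ℝ, Bad = {x | x ∈ Icc a b ∧ ¬ Good x} := ⟨_, rfl⟩
  obtain ⟨v, hv⟩ : ∃ v : ℝ, v = C4 * (J + 1) * ε ^ (1 / (((n + 1) * n : ℕ) : ℝ)) := ⟨_, rfl⟩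
  have hvbad : volume Bad ≤ ENNReal.ofReal v := by
    rw [hBad, hv, hGood, hμ]
    exact hbm ρ Tp α0 hρ0 (by linarith) hTp0 hα00 J ε hε0 hε1
  have hv0 : 0 ≤ v := by rw [hv]; positivity
  have hεθ : ε ^ (1 / (((n + 1) * n : ℕ) : ℝ)) = (T ^ 6)⁻¹ := by
    have h5 : ε = ((T ^ 6)⁻¹) ^ ((n + 1) * n) := by
      rw [hε, hp, pow_mul, inv_pow]
    rw [h5, one_div]
    exact Real.pow_rpow_inv_natCast (by positivity) (by
      have : 0 < (n + 1) * n := by positivity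
      omega)
  have hvle : v ≤ 1 / T ^ 4 := by
    rw [hv, hεθ]
    have h5 : (J : ℝ) + 1 ≤ 3 * T := by linarith
    calc C4 * (J + 1) * (T ^ 6)⁻¹ ≤ C4 * (3 * T) * (T ^ 6)⁻¹ := by gcongr
      _ = 3 * C4 * (T * (T ^ 6)⁻¹) := by ring
      _ ≤ T * (T * (T ^ 6)⁻¹) := by gcongr
      _ = 1 / T ^ 4 := by field_simp
  have h2v : 2 * v ≤ 1 / T * ℓ := by
    have h5 : 2 * (1 / T ^ 4) ≤ 1 / T * (4 / T ^ 3) := by
      have e1 : 1 / T * (4 / T ^ 3) = 4 * (1 / T ^ 4) := by field_simp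
      have : 0 < 1 / T ^ 4 := by positivity
      rw [e1]
      linarith
    have h6 : 1 / T * (4 / T ^ 3) ≤ 1 / T * ℓ := by gcongr
    linarith
  have hvℓ : v ≤ ℓ / 2 := by
    have h5 : 1 / T ≤ 1 := by rw [div_le_one hT0]; exact hT1'
    have h6 : 1 / T * ℓ ≤ 1 * ℓ := by gcongr
    linarith
  -- the good cells
  set G : Finset ℕ := (Finset.range M).filter (fun i => ∃ x ∈ Icc (α + i * ρ) (α + (i + 1) * ρ), Good x) with hG
  have hGmem : ∀ i, i ∈ G ↔ i < M ∧ ∃ x ∈ Icc (α + i * ρ) (α + (i + 1) * ρ), Good x := by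
    intro i
    rw [hG, Finset.mem_filter, Finset.mem_range]
  have hex : ∀ i : ℕ, ∃ x : ℝ, i ∈ G → x ∈ Icc (α + i * ρ) (α + (i + 1) * ρ) ∧ Good x := by
    intro i
    by_cases hi : i ∈ G
    · obtain ⟨_, x, hx⟩ := (hGmem i).1 hi
      exact ⟨x, fun _ => hx⟩
    · exact ⟨0, fun h => absurd h hi⟩
  choose X hX using hex
  have hbad : ∀ i < M, i ∉ G → Icc (α + i * ρ) (α + (i + 1) * ρ) ⊆ Bad := by
    intro i hi hiG x hx
    rw [hBad]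
    have h5 : ((i : ℝ) + 1) ≤ M := by exact_mod_cast hi
    have h6 : ((i : ℝ) + 1) * ρ ≤ M * ρ := by gcongr
    have h7 : 0 ≤ (i : ℝ) * ρ := by positivity
    refine ⟨⟨by linarith [hx.1], by linarith [hx.2]⟩, fun hg => hiG ((hGmem i).2 ⟨hi, x, hx, hg⟩)⟩
  -- the square mean
  obtain ⟨Wb, hWb⟩ : ∃ Wb : ℝ, Wb = M * (J * (4 ^ (n + 1) / μ ^ (n + 1) * (2816 * n * ρ / (m * α0) +
      11264 * n * ρ * Tp ^ n / m + (8 * M / (m * α0) ^ 2 + 16 * M * Tp ^ (n - 1) / (ρ * m ^ 2))))) := ⟨_, rfl⟩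
  have hTpn : Tp ^ n = (8 * CR n R) ^ n * (K : ℝ) ^ n * T ^ (2 * n) := by
    rw [hTp, pow_mul T 2 n, ← mul_pow, ← mul_pow]
    congr 1
    ring
  have hl2 := l2_sum (L := J) hn hR1 hℓ hM (Tk := 8 * K * T ^ 2) (by positivity) hmR hμ0 hμ1 (α := α) (by
      intro t ht1 ht2
      rw [hR, abs_le]
      constructor
      · linarith [neg_abs_le a, abs_nonneg b]
      · linarith [le_abs_self b, abs_nonneg a])
    ((box (rad (fun _ : Fin (n + 1) => K) J)).erase 0) (by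
      intro k hk
      rw [Finset.mem_erase] at hk
      refine ⟨hk.1, fun j => ?_⟩
      have h5 := hk.2
      unfold box at h5
      rw [Fintype.mem_piFinset] at h5
      have h6 := h5 j
      rw [Finset.mem_Ioo] at h6
      unfold rad at h6
      have h7 : |(k j : ℝ)| ≤ 2 * (K * J ^ 2) := by
        rw [abs_le]
        constructor
        · have : (-(2 * ((K * J ^ 2 : ℕ) : ℤ)) : ℤ) ≤ k j := h6.1.le
          have h8 : ((-(2 * ((K * J ^ 2 : ℕ) : ℤ)) : ℤ) : ℝ) ≤ k j := by exact_mod_cast this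
          push_cast at h8
          linarith
        · have : k j ≤ (2 * ((K * J ^ 2 : ℕ) : ℤ) : ℤ) := h6.2.le
          have h8 : (k j : ℝ) ≤ ((2 * ((K * J ^ 2 : ℕ) : ℤ) : ℤ) : ℝ) := by exact_mod_cast this
          push_cast at h8
          linarith
      have h8 : (J : ℝ) ^ 2 ≤ (2 * T) ^ 2 := pow_le_pow_left₀ hJR.le hJ2 2
      have h9 : (0 : ℝ) ≤ K := by linarith
      nlinarith)
    hTp hρ hρ4 hα0 (by
      -- the number of levels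
      rw [hα0]
      have h5 : T ^ z / 8 ≤ m * Tp * ρ ^ 2 := by
        refine hM2.trans ?_
        have : ρ ^ 3 ≤ ρ ^ 2 := by
          have h6 : 0 ≤ ρ ^ 2 := by positivity
          nlinarith
        exact mul_le_mul_of_nonneg_left this (by positivity)
      have h6 : m * Tp ≤ 4 * 2 ^ J := by
        rw [hTp]
        refine le_trans (le_of_eq ?_) h3
        ring
      have h7 : 1 ≤ 8 * (m * Tp * ρ ^ 2) := by linarith
      have h8 : 8 * (m * Tp * ρ ^ 2) ≤ 8 * (4 * 2 ^ J * ρ ^ 2) := by gcongr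
      have h9 : 1 ≤ 32 * ρ ^ 2 * 2 ^ J := by linarith
      calc Tp = Tp * 1 := (mul_one _).symm
        _ ≤ Tp * (32 * ρ ^ 2 * 2 ^ J) := by gcongr
        _ = _ := by ring)
    (by
      -- the volume of the smallest box
      have e1 : α0 * (α0 / (2 * ρ)) * Tp ^ (n - 1) = 512 * Tp ^ n * (Tp * ρ ^ 3) := by
        have h5 : Tp ^ n = Tp * Tp ^ (n - 1) := by
          rw [← pow_succ']
          congr 1
          omega
        rw [hα0, h5]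
        field_simp
        ring
      rw [e1]
      have h5 : Tp * ρ ^ 3 ≤ T ^ z / m := by
        rw [le_div_iff₀ hmR]
        linarith
      have h6 : μ ^ (n + 1) = 1 / (C3 ^ (n + 1) * T ^ (p * (n + 1))) := by
        rw [hμ, hε, div_pow, inv_pow, ← pow_mul]
        field_simp
      rw [h6]
      calc 512 * Tp ^ n * (Tp * ρ ^ 3) ≤ 512 * Tp ^ n * (T ^ z / m) := by gcongr
        _ < 1 / (C3 ^ (n + 1) * T ^ (p * (n + 1))) := by
            rw [mul_div_assoc', div_lt_div_iff₀ hmR (by positivity), one_mul]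
            refine lt_of_le_of_lt (le_of_eq ?_) h4
            rw [hTpn, pow_add, pow_add]
            ring)
    G (fun i hi => ((hGmem i).1 hi).1) X (fun i hi => (hX i hi).1) (fun i hi l hl => by
      have h5 := (hX i hi).2
      rw [hGood] at h5
      exact h5 l hl)
  rw [← hWb] at hl2
  have hWle : Wb ≤ 1 / T ^ 6 := by
    have h5 := numW hn hℓ hρ0 (by linarith : ρ ≤ 1) hmR hTp0 hZ1 (V := 4 ^ (n + 1) / μ ^ (n + 1)) (L := J)
      (by positivity) hMρ hα0 (by linarith : T ^ z / 8 ≤ m * Tp * ρ ^ 3) (by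
        -- `Tp ^ n * Z ≤ m`
        rw [hTpn]
        refine le_trans ?_ h4.le
        have e1 : T ^ (2 * n + z + p * (n + 1)) = T ^ (2 * n) * T ^ z * T ^ (p * (n + 1)) := by
          rw [pow_add, pow_add]
        rw [e1]
        have h6 : (1 : ℝ) ≤ C3 ^ (n + 1) := one_le_pow₀ hC3
        have h7 : (1 : ℝ) ≤ T ^ (p * (n + 1)) := one_le_pow₀ hT1'
        have h8 : (1 : ℝ) ≤ 512 * C3 ^ (n + 1) * T ^ (p * (n + 1)) := by
          have := one_le_mul_of_one_le_of_one_le h6 h7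
          nlinarith
        have h9 : 0 ≤ (8 * CR n R) ^ n * (K : ℝ) ^ n * T ^ (2 * n) * T ^ z := by positivity
        calc (8 * CR n R) ^ n * (K : ℝ) ^ n * T ^ (2 * n) * T ^ z
            ≤ ((8 * CR n R) ^ n * (K : ℝ) ^ n * T ^ (2 * n) * T ^ z) * (512 * C3 ^ (n + 1) * T ^ (p * (n + 1))) :=
              le_mul_of_one_le_right h9 h8
          _ = _ := by ring)
    rw [hWb]
    refine h5.trans ?_
    have h6 : μ ^ (n + 1) = 1 / (C3 ^ (n + 1) * T ^ (p * (n + 1))) := by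
      rw [hμ, hε, div_pow, inv_pow, ← pow_mul]
      field_simp
    rw [h6, div_div_eq_mul_div, div_one, div_le_div_iff₀ hZ (by positivity), one_mul, hz]
    have e2 : T ^ (p * (n + 1) + 8) = T * (T * T ^ (p * (n + 1))) * T ^ 6 := by
      rw [pow_add]
      ring
    rw [e2]
    refine mul_le_mul_of_nonneg_right ?_ (by positivity)
    calc (J : ℝ) * (4 ^ (n + 1) * (C3 ^ (n + 1) * T ^ (p * (n + 1)))) * (12100 * n * (ℓ + ℓ ^ 2))
        ≤ (2 * T) * (4 ^ (n + 1) * (C3 ^ (n + 1) * T ^ (p * (n + 1)))) * (12100 * n * (ℓ + ℓ ^ 2)) := by gcongr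
      _ = (2 * 4 ^ (n + 1) * C3 ^ (n + 1) * (12100 * n * (ℓ + ℓ ^ 2))) * (T * T ^ (p * (n + 1))) := by ring
      _ ≤ T * (T * T ^ (p * (n + 1))) := by gcongr
  have hil := interval_lawn haα hβb hℓ hM hρ G (fun i hi => ((hGmem i).1 hi).1) Bad hbad hvbad hv0 hvℓ
    (m := m) (K := K) (by omega) hJpos hl2 E hE
  refine hil.trans ?_
  have hsq : √Wb ≤ 1 / T ^ 3 := by
    rw [show (1 : ℝ) / T ^ 3 = √((1 / T ^ 3) ^ 2) from (Real.sqrt_sq (by positivity)).symm]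
    apply Real.sqrt_le_sqrt
    refine hWle.trans (le_of_eq ?_)
    rw [div_pow, ← pow_mul]
    norm_num
  have h2ℓ : 2 / ℓ * √Wb ≤ 1 / T := by
    have h5 : 2 / ℓ ≤ T ^ 2 / 2 := by
      rw [div_le_div_iff₀ hℓ (by norm_num)]
      rw [div_le_iff₀ (by positivity)] at hW2
      linarith
    calc 2 / ℓ * √Wb ≤ T ^ 2 / 2 * (1 / T ^ 3) := by gcongr
      _ = 1 / (2 * T) := by field_simp
      _ ≤ 1 / T := by
          apply one_div_le_one_div_of_le hT0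
          linarith
  have h5J : (5 : ℝ) / J ≤ 5 / T := div_le_div_of_nonneg_left (by norm_num) hT0 hJ1
  have hn0 : (0 : ℝ) ≤ (n : ℝ) + 1 := by positivity
  have a1 : ((n : ℝ) + 1) * (5 / J) ≤ (n + 1) * (5 / T) := mul_le_mul_of_nonneg_left h5J hn0
  have a2 : (4 * ((n : ℝ) + 1) + 1) * (2 / ℓ * √Wb) ≤ (4 * (n + 1) + 1) * (1 / T) :=
    mul_le_mul_of_nonneg_left h2ℓ (by positivity)
  have a3 : ((n : ℝ) + 1) * (5 / T) + (4 * (n + 1) + 1) * (1 / T) + 1 / T = (9 * n + 11) / T := by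
    field_simp
    ring
  have a4 : (((n : ℝ) + 1) * (5 / J) + (4 * (n + 1) + 1) * (2 / ℓ * √Wb)) * ℓ ≤
      ((n + 1) * (5 / T) + (4 * (n + 1) + 1) * (1 / T)) * ℓ := by gcongr
  rw [← a3]
  linarith

end Pool.Agent.W5h30.PW
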